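import Mathlib
import Pool.Agent.Lib.MP_bf4c7f_nt3.CritB

/-!
# Integers without small prime factors in short intervals: the criterion

The number of integers `n` in `(a, b]` all of whose prime factors exceed `y` is bounded below by
`V ^ (-1) ∑ W(n) (1 - #{p ∣ n, p < z}) - ∑_{z ≤ p ≤ y} ∑_{p ∣ n} w(n)` with squares of Selberg sums `W`
and `w`.
-/

set_option autoImplicit false

namespace Pool.Agent.Lib.MP_bf4c7f

open Finset

/-- the integers in `(a, b]` all of whose prime factors exceed `y` -/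
noncomputable def RG (a b y : ℕ) : Finset ℕ := by
  classical
  exact (Ioc a b).filter fun n => ∀ p : ℕ, p.Prime → p ∣ n → y < p

lemma mem_RG {a b y n : ℕ} : n ∈ RG a b y ↔ (a < n ∧ n ≤ b) ∧ ∀ p : ℕ, p.Prime → p ∣ n → y < p := by
  classical
  unfold RG
  rw [mem_filter, mem_Ioc]

/-- A pointwise inequality gives a lower bound for the number of integers without small prime
factors. -/
theorem crit_count (I G : Finset ℕ) (hG : G ⊆ I) (w0 : ℕ → ℝ) (V : ℝ) (z y : ℕ)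
    (hw : ∀ n ∈ I, 0 ≤ w0 n) (w1 : ℕ → ℝ) (hw1 : ∀ n, 0 ≤ w1 n) (hV0 : 0 ≤ V)
    (hgood : ∀ n ∈ I, (∀ p ∈ P7 (z - 1), ¬ p ∣ n) → (∀ p ∈ (Icc z y).filter Nat.Prime, ¬ p ∣ n) →
      w0 n ≤ 0 ∨ (n ∈ G ∧ w0 n ≤ V))
    (hmid : ∀ n ∈ I, (∀ p ∈ P7 (z - 1), ¬ p ∣ n) → (∃ p ∈ (Icc z y).filter Nat.Prime, p ∣ n) →
      w0 n ≤ V * w1 n) :
    ∑ n ∈ I, w0 n - ∑ p ∈ P7 (z - 1), ∑ n ∈ I.filter (fun n => p ∣ n), w0 n -
      V * ∑ p ∈ (Icc z y).filter Nat.Prime, ∑ n ∈ I.filter (fun n => p ∣ n), w1 n ≤ V * G.card := by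
  classical
  have e1 : ∑ p ∈ P7 (z - 1), ∑ n ∈ I.filter (fun n => p ∣ n), w0 n =
      ∑ n ∈ I, (((P7 (z - 1)).filter (fun p => p ∣ n)).card : ℝ) * w0 n := by
    simp_rw [Finset.sum_filter]
    rw [Finset.sum_comm]
    apply Finset.sum_congr rfl
    intro n _
    rw [← Finset.sum_filter, Finset.sum_const, nsmul_eq_mul]
  have e2 : ∑ p ∈ (Icc z y).filter Nat.Prime, ∑ n ∈ I.filter (fun n => p ∣ n), w1 n =
      ∑ n ∈ I, ((((Icc z y).filter Nat.Prime).filter (fun p => p ∣ n)).card : ℝ) * w1 n := by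
    have : ∀ p ∈ (Icc z y).filter Nat.Prime, ∑ n ∈ I.filter (fun n => p ∣ n), w1 n =
        ∑ n ∈ I, if p ∣ n then w1 n else 0 := fun p _ => Finset.sum_filter _ _
    rw [Finset.sum_congr rfl this, Finset.sum_comm]
    apply Finset.sum_congr rfl
    intro n _
    rw [← Finset.sum_filter, Finset.sum_const, nsmul_eq_mul]
  have e3 : V * (G.card : ℝ) = ∑ n ∈ I, if n ∈ G then V else 0 := by
    rw [← Finset.sum_filter, Finset.sum_const, nsmul_eq_mul, mul_comm]
    congr 3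
    ext n
    rw [mem_filter]
    exact ⟨fun h => ⟨hG h, h⟩, fun h => h.2⟩
  rw [e1, e2, e3, Finset.mul_sum, ← Finset.sum_sub_distrib, ← Finset.sum_sub_distrib]
  apply Finset.sum_le_sum
  intro n hn
  have hw0 := hw n hn
  have h10 := hw1 n
  have hc2 : (0 : ℝ) ≤ ((((Icc z y).filter Nat.Prime).filter (fun p => p ∣ n)).card : ℝ) := by
    positivity
  have hg0 : (0 : ℝ) ≤ if n ∈ G then V else 0 := by
    split_ifs
    · exact hV0
    · exact le_rfl
  by_cases hA : ∀ p ∈ P7 (z - 1), ¬ p ∣ n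
  · have hz1 : (P7 (z - 1)).filter (fun p => p ∣ n) = ∅ := by
      rw [Finset.filter_eq_empty_iff]
      intro p hp
      exact hA p hp
    rw [hz1, Finset.card_empty, Nat.cast_zero, zero_mul, sub_zero]
    by_cases hB : ∀ p ∈ (Icc z y).filter Nat.Prime, ¬ p ∣ n
    · have h4 : 0 ≤ V * (((((Icc z y).filter Nat.Prime).filter (fun p => p ∣ n)).card : ℝ) * w1 n) :=
        mul_nonneg hV0 (mul_nonneg hc2 h10)
      rcases hgood n hn hA hB with h | ⟨h, h'⟩
      · linarith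
      · rw [if_pos h]
        linarith
    · push Not at hB
      have h3 := hmid n hn hA hB
      obtain ⟨p, hp1, hp2⟩ := hB
      have h1 : (1 : ℝ) ≤ ((((Icc z y).filter Nat.Prime).filter (fun p => p ∣ n)).card : ℝ) := by
        have : 0 < (((Icc z y).filter Nat.Prime).filter (fun p => p ∣ n)).card :=
          Finset.card_pos.2 ⟨p, mem_filter.2 ⟨hp1, hp2⟩⟩
        exact_mod_cast this
      have h4 : V * w1 n ≤ V * (((((Icc z y).filter Nat.Prime).filter (fun p => p ∣ n)).card : ℝ) *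
          w1 n) := by
        apply mul_le_mul_of_nonneg_left _ hV0
        nlinarith
      linarith
  · push Not at hA
    obtain ⟨p, hp1, hp2⟩ := hA
    have h1 : (1 : ℝ) ≤ (((P7 (z - 1)).filter (fun p => p ∣ n)).card : ℝ) := by
      have : 0 < ((P7 (z - 1)).filter (fun p => p ∣ n)).card :=
        Finset.card_pos.2 ⟨p, mem_filter.2 ⟨hp1, hp2⟩⟩
      exact_mod_cast this
    have h2 : w0 n ≤ (((P7 (z - 1)).filter (fun p => p ∣ n)).card : ℝ) * w0 n := by nlinarith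
    have h4 : 0 ≤ V * (((((Icc z y).filter Nat.Prime).filter (fun p => p ∣ n)).card : ℝ) * w1 n) :=
      mul_nonneg hV0 (mul_nonneg hc2 h10)
    linarith

/-- **The criterion.** -/
theorem critR (a b z y R1 Rc : ℕ) (hab : a ≤ b) (hN : ∀ n ∈ Ioc a b, n < z ^ 9) (hz : 7 ≤ z)
    (hR1 : 1 ≤ R1) (hR1z : R1 < z)
    (hL : 8 * ((z : ℝ) / ((z : ℝ) - 1) * L1 R1) ≤ 2 * L1 (z * R1))
    (hRc : 1 ≤ Rc) (hRcz : Rc < z) :
    4 / 15 * ((b : ℝ) - a) * S0 (z * R1)
        - 28 / 15 * (∑ d ∈ Icc 1 (z * R1), |lamY (YR (z * R1)) (z * R1) d|) ^ 2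
        - ∑ p ∈ P7 (z - 1), (4 / 15 * ((b : ℝ) - a) * (Np (z * R1) p / p) +
            28 / 15 * (∑ d ∈ Icc 1 (z * R1), |lamY (YR (z * R1)) (z * R1) d|) ^ 2)
        - L1 (z * R1) ^ 2 * ∑ p ∈ (Icc z y).filter Nat.Prime,
          (4 / 15 * ((b : ℝ) - a) / (p * GG Rc) + 28 / 15 * ((4 * (Rc : ℝ) + 14) / 15) ^ 2) ≤
      L1 (z * R1) ^ 2 * (RG a b y).card := by
  set R := z * R1 with hR
  have hsub : RG a b y ⊆ Ioc a b := by
    intro n hn
    rw [mem_Ioc]
    exact (mem_RG.1 hn).1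
  have hrough : ∀ n : ℕ, Nat.Coprime n 30 → (∀ p ∈ P7 (z - 1), ¬ p ∣ n) → Rough z n := by
    intro n h30 hA p hp hpn
    by_contra hlt
    have h7 : 7 ≤ p := by
      by_contra h7
      have hc : Nat.Coprime p 30 := Nat.Coprime.coprime_dvd_left hpn h30
      have hlt' : p < 7 := not_le.1 h7
      interval_cases p <;> revert hp hc <;> norm_num
    exact hA p (mem_P7.2 ⟨hp, h7, by omega⟩) hpn
  have hG := GG_pos Rc hRc
  have hk := crit_count (Ioc a b) (RG a b y) hsub (WY (YR R) R) (L1 R ^ 2) z y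
    (fun n _ => WY_nonneg _ _ _) (fun n => W Rc n / GG Rc ^ 2)
    (fun n => div_nonneg (W_nonneg _ _) (sq_nonneg _)) (sq_nonneg _)
    (by
      intro n hn hA hB
      by_cases h30 : Nat.Coprime n 30
      · right
        have hr := hrough n h30 hA
        have hn1 := mem_Ioc.1 hn
        refine ⟨mem_RG.2 ⟨hn1, fun p hp hpn => ?_⟩, ?_⟩
        · by_contra hlt
          exact hB p (mem_filter.2 ⟨mem_Icc.2 ⟨hr p hp hpn, not_lt.1 hlt⟩, hp⟩) hpn
        · exact WY_rough R1 z n hR1 (by omega) hR1z (by omega) hr (hN n hn) hL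
      · left
        unfold WY ind30
        rw [if_neg h30, zero_mul])
    (by
      intro n hn hA hB
      by_cases h30 : Nat.Coprime n 30
      · have hr := hrough n h30 hA
        have hn1 := mem_Ioc.1 hn
        rw [W_rough Rc z n hRc hRcz h30 hr, div_self (by positivity), mul_one]
        exact WY_rough R1 z n hR1 (by omega) hR1z (by omega) hr (hN n hn) hL
      · have e1 : WY (YR R) R n = 0 := by
          unfold WY ind30
          rw [if_neg h30, zero_mul]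
        rw [e1]
        exact mul_nonneg (sq_nonneg _) (div_nonneg (W_nonneg _ _) (sq_nonneg _)))
  have h1 := sum_WY_total a b R hab
  have h2 : ∑ p ∈ P7 (z - 1), ∑ n ∈ (Ioc a b).filter (fun n => p ∣ n), WY (YR R) R n ≤
      ∑ p ∈ P7 (z - 1), (4 / 15 * ((b : ℝ) - a) * (Np R p / p) +
            28 / 15 * (∑ d ∈ Icc 1 R, |lamY (YR R) R d|) ^ 2) := by
    apply Finset.sum_le_sum
    intro p hp
    rw [mem_P7] at hp
    exact sum_WY_prime a b R p hab hp.1 hp.2.1
  have h3 : ∑ p ∈ (Icc z y).filter Nat.Prime,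
      ∑ n ∈ (Ioc a b).filter (fun n => p ∣ n), W Rc n / GG Rc ^ 2 ≤
      ∑ p ∈ (Icc z y).filter Nat.Prime,
          (4 / 15 * ((b : ℝ) - a) / (p * GG Rc) +
            28 / 15 * ((4 * (Rc : ℝ) + 14) / 15) ^ 2) := by
    apply Finset.sum_le_sum
    intro p hp
    rw [mem_filter, mem_Icc] at hp
    exact sum_W_prime a b Rc p hab hRc hp.2 (hz.trans hp.1.1)
  have h4 := mul_le_mul_of_nonneg_left h3 (sq_nonneg (L1 R))
  linarith

end Pool.Agent.Lib.MP_bf4c7f
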