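import Mathlib
import Pool.Agent.Lib.MP_bf4c7f_nt3.Count13
import Pool.Agent.Lib.MP_bf4c7f_nt3.Num1000
import Pool.Agent.Lib.MP_bf4c7f_rough.Crit

/-!
# The range `x < 2 ^ 41`: the first step of inclusion-exclusion after presieving
-/

set_option autoImplicit false

namespace Pool.Agent.Lib.MP_bf4c7f

open Finset

/-- the first step of inclusion-exclusion -/
theorem first_order (S T : Finset ℕ) (hS : ∀ q ∈ S, q.Prime ∧ 7 ≤ q)
    (hT : ∀ p ∈ T, p.Prime ∧ 7 ≤ p ∧ p ∉ S) (a b Z : ℕ) (hab : a ≤ b)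
    (hZ : ∀ p : ℕ, p.Prime → 7 ≤ p → p ≤ Z → p ∈ S ∨ p ∈ T) :
    4 / 15 * (∏ q ∈ S, (1 - 1 / (q : ℝ))) * ((b : ℝ) - a) * (1 - ∑ p ∈ T, 1 / (p : ℝ)) -
      28 / 15 * 2 ^ S.card * (1 + T.card) ≤ ((RG a b Z).card : ℝ) := by
  classical
  set ρ : ℝ := 4 / 15 * (∏ q ∈ S, (1 - 1 / (q : ℝ))) with hρ
  set E : ℝ := 28 / 15 * 2 ^ S.card with hE
  set N : ℕ → Finset ℕ := fun e => (Ioc a b).filter
    (fun n => Nat.Coprime n 30 ∧ (∀ q ∈ S, ¬ q ∣ n) ∧ e ∣ n) with hN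
  have h1 : ρ * ((b : ℝ) - a) - E ≤ ((N 1).card : ℝ) := by
    have h := count_sieved S hS a b 1 hab one_pos (by norm_num) (fun q _ => Nat.coprime_one_left q)
    rw [abs_le] at h
    have h2 := h.1
    rw [Nat.cast_one, div_one] at h2
    have h3 : ((N 1).card : ℝ) = ((((Finset.Ioc a b).filter (fun n => Nat.Coprime n 30 ∧
      (∀ q ∈ S, ¬ q ∣ n) ∧ 1 ∣ n)).card : ℕ) : ℝ) := rfl
    rw [h3, hρ, hE]
    linarith
  have h2 : ∀ p ∈ T, ((N p).card : ℝ) ≤ ρ * ((b : ℝ) - a) * (1 / (p : ℝ)) + E := by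
    intro p hp
    obtain ⟨hp1, hp7, hpS⟩ := hT p hp
    have h := count_sieved S hS a b p hab hp1.pos (prime_coprime_30 hp1 hp7) (by
      intro q hq
      rw [Nat.coprime_primes hp1 (hS q hq).1]
      rintro rfl
      exact hpS hq)
    rw [abs_le] at h
    have h2 := h.2
    have h3 : ((N p).card : ℝ) = ((((Finset.Ioc a b).filter (fun n => Nat.Coprime n 30 ∧
      (∀ q ∈ S, ¬ q ∣ n) ∧ p ∣ n)).card : ℕ) : ℝ) := rfl
    rw [h3]
    have h4 : ρ * ((b : ℝ) - a) / p = ρ * ((b : ℝ) - a) * (1 / (p : ℝ)) := by ring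
    rw [hρ] at h4 ⊢
    linarith
  have h3 : N 1 ⊆ RG a b Z ∪ T.biUnion N := by
    intro n hn
    rw [hN] at hn
    simp only [mem_filter, mem_Ioc] at hn
    rw [mem_union]
    by_cases hc : ∃ p ∈ T, p ∣ n
    · right
      obtain ⟨p, hp, hpn⟩ := hc
      rw [mem_biUnion]
      refine ⟨p, hp, ?_⟩
      rw [hN]
      simp only [mem_filter, mem_Ioc]
      exact ⟨hn.1, hn.2.1, hn.2.2.1, hpn⟩
    · left
      push Not at hc
      rw [mem_RG]
      refine ⟨hn.1, fun p hp hpn => ?_⟩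
      by_contra hlt
      have hlt' : p ≤ Z := not_lt.1 hlt
      have h7 : 7 ≤ p := by
        by_contra h7
        have hc' : Nat.Coprime p 30 := Nat.Coprime.coprime_dvd_left hpn hn.2.1
        have hlt7 : p < 7 := not_le.1 h7
        interval_cases p <;> revert hp hc' <;> norm_num
      rcases hZ p hp h7 hlt' with h | h
      · exact hn.2.2.1 p h hpn
      · exact hc p h hpn
  have h4 : ((N 1).card : ℝ) ≤ ((RG a b Z).card : ℝ) + ∑ p ∈ T, ((N p).card : ℝ) := by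
    have e1 := (Finset.card_le_card h3).trans (Finset.card_union_le _ _)
    have e2 : (T.biUnion N).card ≤ ∑ p ∈ T, (N p).card := Finset.card_biUnion_le
    have e3 : (N 1).card ≤ (RG a b Z).card + ∑ p ∈ T, (N p).card := by omega
    exact_mod_cast e3
  have h5 : ∑ p ∈ T, ((N p).card : ℝ) ≤ ρ * ((b : ℝ) - a) * ∑ p ∈ T, 1 / (p : ℝ) + E * T.card := by
    refine (Finset.sum_le_sum h2).trans (le_of_eq ?_)
    rw [Finset.sum_add_distrib, ← Finset.mul_sum, Finset.sum_const, nsmul_eq_mul]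
    ring
  have h6 : ρ * ((b : ℝ) - a) * (1 - ∑ p ∈ T, 1 / (p : ℝ)) - E * (1 + T.card) =
      ρ * ((b : ℝ) - a) - E - (ρ * ((b : ℝ) - a) * ∑ p ∈ T, 1 / (p : ℝ) + E * T.card) := by ring
  rw [h6]
  linarith

lemma RG_anti {a b y Z : ℕ} (h : y ≤ Z) : RG a b Z ⊆ RG a b y := by
  intro n hn
  rw [mem_RG] at hn ⊢
  exact ⟨hn.1, fun p hp hpn => lt_of_le_of_lt h (hn.2 p hp hpn)⟩

/-- one dyadic block -/
theorem block (j Z : ℕ) (S : Finset ℕ) (hS : ∀ q ∈ S, q.Prime ∧ 7 ≤ q) (σ c ρ : ℝ)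
    (hρ0 : 0 ≤ ρ) (hρ : ρ ≤ 4 / 15 * ∏ q ∈ S, (1 - 1 / (q : ℝ)))
    (hσ : ∑ p ∈ P7 Z \ S, 1 / (p : ℝ) ≤ σ) (hc : ((P7 Z \ S).card : ℝ) ≤ c) (hj : 1 ≤ j)
    (hZj : 2 ^ (3 * (j + 1)) ≤ (Z + 1) ^ 8) (hσ1 : σ ≤ 1)
    (hnum : 1 / (3.4655 * (j : ℝ)) ≤
      ρ * (1 - 1 / 2 ^ j) * (1 - σ) - 28 / 15 * 2 ^ S.card * (1 + c) / 2 ^ j)
    (x a y : ℕ) (hx1 : 2 ^ j ≤ x) (hx2 : x < 2 ^ (j + 1)) (hy1 : y ^ 8 ≤ x ^ 3) :
    (x : ℝ) / (5 * Real.log x) ≤ ((RG a (a + (x - 1)) y).card : ℝ) := by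
  have hyZ : y ≤ Z := by
    have h1 : x ^ 3 < 2 ^ (3 * (j + 1)) := by
      calc x ^ 3 < (2 ^ (j + 1)) ^ 3 := Nat.pow_lt_pow_left hx2 (by norm_num)
        _ = 2 ^ (3 * (j + 1)) := by rw [← pow_mul, mul_comm]
    have h2 : y ^ 8 < (Z + 1) ^ 8 := lt_of_le_of_lt hy1 (lt_of_lt_of_le h1 hZj)
    have h3 : y < Z + 1 := lt_of_pow_lt_pow_left₀ 8 (by omega) h2
    omega
  have h0 := Finset.card_le_card (RG_anti (a := a) (b := a + (x - 1)) hyZ)
  have h0' : ((RG a (a + (x - 1)) Z).card : ℝ) ≤ ((RG a (a + (x - 1)) y).card : ℝ) := by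
    exact_mod_cast h0
  refine le_trans ?_ h0'
  have hx0 : 1 ≤ x := le_trans Nat.one_le_two_pow hx1
  have hxR : (2 : ℝ) ^ j ≤ x := by exact_mod_cast hx1
  have h2j : (0 : ℝ) < 2 ^ j := by positivity
  have hxpos : (0 : ℝ) < x := lt_of_lt_of_le h2j hxR
  have hcast : ((a + (x - 1) : ℕ) : ℝ) - a = (x : ℝ) - 1 := by
    rw [Nat.cast_add, Nat.cast_sub hx0]
    push_cast; ring
  have h1 := first_order S (P7 Z \ S) hS (by
    intro p hp
    rw [mem_sdiff, mem_P7] at hp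
    exact ⟨hp.1.1, hp.1.2.1, hp.2⟩) a (a + (x - 1)) Z (by omega) (by
    intro p hp h7 hpZ
    by_cases h : p ∈ S
    · exact Or.inl h
    · exact Or.inr (mem_sdiff.2 ⟨mem_P7.2 ⟨hp, h7, hpZ⟩, h⟩))
  rw [hcast] at h1
  refine le_trans ?_ h1
  have hX : (x : ℝ) * (1 - 1 / 2 ^ j) ≤ (x : ℝ) - 1 := by
    have : (1 : ℝ) ≤ x * (1 / 2 ^ j) := by
      rw [mul_one_div, le_div_iff₀ h2j]
      linarith
    linarith
  have hj0 : (1 : ℝ) ≤ j := by exact_mod_cast hj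
  have hhalf : (1 : ℝ) / 2 ^ j ≤ 1 := by
    rw [div_le_one h2j]
    exact one_le_pow₀ (by norm_num)
  -- the logarithm
  have hlog : 0.6931 * (j : ℝ) ≤ Real.log x := by
    have e1 := Real.log_le_log h2j hxR
    rw [Real.log_pow] at e1
    have e2 := Real.log_two_gt_d9
    have e3 : 0.6931 * (j : ℝ) ≤ j * Real.log 2 := by
      rw [mul_comm]
      apply mul_le_mul_of_nonneg_left _ (by linarith)
      norm_num at e2 ⊢
      linarith
    linarith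
  have e1 : (x : ℝ) / (5 * Real.log x) ≤ x * (1 / (3.4655 * (j : ℝ))) := by
    rw [mul_one_div]
    apply div_le_div_of_nonneg_left hxpos.le (by positivity)
    norm_num at hlog ⊢
    linarith
  refine e1.trans ?_
  have e2 := mul_le_mul_of_nonneg_left hnum hxpos.le
  refine e2.trans ?_
  have f1 : (x : ℝ) * (ρ * (1 - 1 / 2 ^ j) * (1 - σ)) ≤
      4 / 15 * (∏ q ∈ S, (1 - 1 / (q : ℝ))) * ((x : ℝ) - 1) *
        (1 - ∑ p ∈ P7 Z \ S, 1 / (p : ℝ)) := by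
    have g1 : (x : ℝ) * (ρ * (1 - 1 / 2 ^ j) * (1 - σ)) =
        ρ * (x * (1 - 1 / 2 ^ j)) * (1 - σ) := by ring
    rw [g1]
    apply mul_le_mul _ (by linarith) (by linarith) _
    · apply mul_le_mul hρ hX _ (by linarith)
      apply mul_nonneg hxpos.le
      linarith
    · apply mul_nonneg (by linarith)
      have : (1 : ℝ) ≤ x := by exact_mod_cast hx0
      linarith
  have f2 : 28 / 15 * 2 ^ S.card * (1 + ((P7 Z \ S).card : ℝ)) ≤
      x * (28 / 15 * 2 ^ S.card * (1 + c) / 2 ^ j) := by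
    have g1 : (x : ℝ) * (28 / 15 * 2 ^ S.card * (1 + c) / 2 ^ j) =
        (28 / 15 * 2 ^ S.card * (1 + c)) * (x / 2 ^ j) := by ring
    have g2 : 1 ≤ (x : ℝ) / 2 ^ j := by
      rw [le_div_iff₀ h2j]
      linarith
    have g3 : 0 ≤ ((P7 Z \ S).card : ℝ) := Nat.cast_nonneg _
    have g4 : 28 / 15 * 2 ^ S.card * (1 + ((P7 Z \ S).card : ℝ)) ≤
        28 / 15 * 2 ^ S.card * (1 + c) := by
      apply mul_le_mul_of_nonneg_left _ (by positivity)
      linarith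
    rw [g1]
    have g5 : 0 ≤ 28 / 15 * 2 ^ S.card * (1 + c) := le_trans (by positivity) g4
    nlinarith
  linarith

/-! ### numerical sums over primes -/

/-- the terms of the sum of `1 / n` over the integers prime to `Q` -/
noncomputable def gq (Q n : ℕ) : ℕ :=
  cond (Nat.beq (Nat.gcd n Q) 1) (Nat.add (Nat.div 1000000000 n) 1) 0

/-- the terms of the number of integers prime to `Q` -/
noncomputable def g1 (Q n : ℕ) : ℕ := cond (Nat.beq (Nat.gcd n Q) 1) 1 0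

lemma gcd_eq_one_of {Q m p : ℕ} (hQ : Q ∣ m.factorial) (hp : p.Prime) (hmp : m < p) :
    Nat.gcd p Q = 1 := by
  rw [← Nat.coprime_iff_gcd_eq_one, Nat.Prime.coprime_iff_not_dvd hp]
  intro h
  have := (Nat.Prime.dvd_factorial hp).1 (h.trans hQ)
  omega

lemma scan_sum (Q m n B : ℕ) (hQ : Q ∣ m.factorial) (hmn : m ≤ n)
    (hB : sumScan (gq Q) (n - m) m 0 ≤ B) :
    ∑ p ∈ (Ioc m n).filter Nat.Prime, 1 / (p : ℝ) ≤ (B : ℝ) / 10 ^ 9 := by
  rw [sumScan_eq, zero_add, Nat.add_sub_cancel' hmn] at hB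
  have h1 : ∑ p ∈ (Ioc m n).filter Nat.Prime, 1 / (p : ℝ) ≤
      ∑ p ∈ (Ioc m n).filter Nat.Prime, (gq Q p : ℝ) / 10 ^ 9 := by
    apply Finset.sum_le_sum
    intro p hp
    rw [mem_filter, mem_Ioc] at hp
    have hg := gcd_eq_one_of hQ hp.2 hp.1.1
    have e1 : gq Q p = 1000000000 / p + 1 := by
      unfold gq
      rw [hg]
      rfl
    have hpR : (0 : ℝ) < p := by exact_mod_cast hp.2.pos
    rw [e1, div_le_div_iff₀ hpR (by positivity)]
    have e2 := Nat.div_add_mod 1000000000 p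
    have e3 := Nat.mod_lt 1000000000 hp.2.pos
    have e4 : 1000000000 ≤ (1000000000 / p + 1) * p := by nlinarith
    have e5 : (1000000000 : ℝ) ≤ ((1000000000 / p + 1 : ℕ) : ℝ) * p := by exact_mod_cast e4
    norm_num at e5 ⊢
    linarith
  refine h1.trans ?_
  rw [← Finset.sum_div]
  apply div_le_div_of_nonneg_right _ (by positivity)
  have h2 : ∑ p ∈ (Ioc m n).filter Nat.Prime, gq Q p ≤ ∑ p ∈ Ioc m n, gq Q p :=
    Finset.sum_le_sum_of_subset (Finset.filter_subset _ _)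
  exact_mod_cast h2.trans hB

lemma scan_card (Q m n B : ℕ) (hQ : Q ∣ m.factorial) (hmn : m ≤ n)
    (hB : sumScan (g1 Q) (n - m) m 0 ≤ B) :
    ((Ioc m n).filter Nat.Prime).card ≤ B := by
  rw [sumScan_eq, zero_add, Nat.add_sub_cancel' hmn] at hB
  refine le_trans ?_ hB
  rw [Finset.card_eq_sum_ones]
  have h1 : ∑ p ∈ (Ioc m n).filter Nat.Prime, 1 ≤ ∑ p ∈ (Ioc m n).filter Nat.Prime, g1 Q p := by
    apply Finset.sum_le_sum
    intro p hp
    rw [mem_filter, mem_Ioc] at hp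
    have hg := gcd_eq_one_of hQ hp.2 hp.1.1
    unfold g1
    rw [hg]
    exact le_rfl
  exact h1.trans (Finset.sum_le_sum_of_subset (Finset.filter_subset _ _))

/-- the sum and the number of the primes in `(m, n]` are bounded by `s / 10 ^ 9` and `c` -/
def SC2 (m n s c : ℕ) : Prop :=
  m ≤ n ∧ ∑ p ∈ (Ioc m n).filter Nat.Prime, 1 / (p : ℝ) ≤ (s : ℝ) / 10 ^ 9 ∧
    ((Ioc m n).filter Nat.Prime).card ≤ c

lemma SC2.of_scan (Q m n s c : ℕ) (hQ : Q ∣ m.factorial) (hmn : m ≤ n)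
    (h1 : sumScan (gq Q) (n - m) m 0 ≤ s) (h2 : sumScan (g1 Q) (n - m) m 0 ≤ c) : SC2 m n s c :=
  ⟨hmn, scan_sum Q m n s hQ hmn h1, scan_card Q m n c hQ hmn h2⟩

lemma SC2.trans {m n k s c s' c' : ℕ} (h : SC2 m n s c) (h' : SC2 n k s' c') :
    SC2 m k (s + s') (c + c') := by
  obtain ⟨a1, a2, a3⟩ := h
  obtain ⟨b1, b2, b3⟩ := h'
  have e1 : (Ioc m k).filter Nat.Prime =
      (Ioc m n).filter Nat.Prime ∪ (Ioc n k).filter Nat.Prime := by
    rw [← Finset.filter_union, Finset.Ioc_union_Ioc_eq_Ioc a1 b1]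
  have e2 : Disjoint ((Ioc m n).filter Nat.Prime) ((Ioc n k).filter Nat.Prime) := by
    rw [Finset.disjoint_left]
    intro p hp hp'
    simp only [mem_filter, mem_Ioc] at hp hp'
    omega
  refine ⟨a1.trans b1, ?_, ?_⟩
  · rw [e1, Finset.sum_union e2]
    push_cast
    rw [add_div]
    linarith
  · rw [e1, Finset.card_union_of_disjoint e2]
    omega

end Pool.Agent.Lib.MP_bf4c7f
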