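import Mathlib
import Pool.Agent.Lib.MP_bf4c7f_rough.First

/-!
# The range `x < 2 ^ 41`: the dyadic blocks
-/

set_option autoImplicit false
set_option exponentiation.threshold 500

namespace Pool.Agent.Lib.MP_bf4c7f

open Finset

/-- the primes from 7 to 13 -/
def SA : Finset ℕ := {7, 11, 13}

lemma SA_prime : ∀ q ∈ SA, q.Prime ∧ 7 ≤ q := by
  intro q hq
  simp only [SA, mem_insert, mem_singleton] at hq
  rcases hq with rfl | rfl | rfl <;> norm_num

lemma SA_card : SA.card = 3 := by decide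

lemma SA_sub (Z : ℕ) : P7 Z \ SA ⊆ (Ioc 13 Z).filter Nat.Prime := by
  intro p hp
  rw [mem_sdiff, mem_P7] at hp
  rw [mem_filter, mem_Ioc]
  refine ⟨⟨?_, hp.1.2.2⟩, hp.1.1⟩
  by_contra hlt
  have h1 : p ≤ 13 := not_lt.1 hlt
  obtain ⟨⟨hp1, hp2, -⟩, hp3⟩ := hp
  interval_cases p <;> revert hp1 hp3 <;> first | decide | norm_num

lemma SA_prod : (0.191808 : ℝ) ≤ 4 / 15 * ∏ q ∈ SA, (1 - 1 / (q : ℝ)) := by
  have h : ∏ q ∈ SA, (1 - 1 / (q : ℝ)) = 720 / 1001 := by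
    unfold SA
    repeat rw [Finset.prod_insert (by decide)]
    rw [Finset.prod_singleton]
    norm_num
  rw [h]
  norm_num

lemma SA_sc13 : SC2 13 13 0 0 := by
  refine ⟨le_rfl, ?_, ?_⟩ <;> simp

lemma SA_sc17 : SC2 13 17 58823530 1 :=
  SC2.of_scan 6 13 17 58823530 1 (by decide +kernel) (by norm_num) (by decide +kernel) (by decide +kernel)

lemma SA_sc22 : SC2 13 22 111455109 2 :=
  SC2.trans SA_sc17
    (SC2.of_scan 6 17 22 52631579 1 (by decide +kernel) (by norm_num) (by decide +kernel) (by decide +kernel))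

lemma SA_sc29 : SC2 13 29 189416129 4 :=
  SC2.trans SA_sc22
    (SC2.of_scan 30 22 29 77961020 2 (by decide +kernel) (by norm_num) (by decide +kernel) (by decide +kernel))

lemma SA_sc38 : SC2 13 38 248701222 6 :=
  SC2.trans SA_sc29
    (SC2.of_scan 30 29 38 59285093 2 (by decide +kernel) (by norm_num) (by decide +kernel) (by decide +kernel))

lemma SA_sc49 : SC2 13 49 317623876 9 :=
  SC2.trans SA_sc38
    (SC2.of_scan 210 38 49 68922654 3 (by decide +kernel) (by norm_num) (by decide +kernel) (by decide +kernel))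

lemma SA_sc63 : SC2 13 63 369834397 12 :=
  SC2.trans SA_sc49
    (SC2.of_scan 210 49 63 52210521 3 (by decide +kernel) (by norm_num) (by decide +kernel) (by decide +kernel))

lemma SA_sc82 : SC2 13 82 425201138 16 :=
  SC2.trans SA_sc63
    (SC2.of_scan 210 63 82 55366741 4 (by decide +kernel) (by norm_num) (by decide +kernel) (by decide +kernel))

lemma SA_sc107 : SC2 13 107 487750090 22 :=
  SC2.trans SA_sc82
    (SC2.of_scan 210 82 107 62548952 6 (by decide +kernel) (by norm_num) (by decide +kernel) (by decide +kernel))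

lemma SA_sc139 : SC2 13 139 535775080 28 :=
  SC2.trans SA_sc107
    (SC2.of_scan 2310 107 139 48024990 6 (by decide +kernel) (by norm_num) (by decide +kernel) (by decide +kernel))

lemma SA_sc181 : SC2 13 181 584493230 36 :=
  SC2.trans SA_sc139
    (SC2.of_scan 30030 139 181 48718150 8 (by decide +kernel) (by norm_num) (by decide +kernel) (by decide +kernel))

lemma SA_sc234 : SC2 13 234 627299038 45 :=
  SC2.trans SA_sc181
    (SC2.of_scan 30030 181 234 42805808 9 (by decide +kernel) (by norm_num) (by decide +kernel) (by decide +kernel))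

lemma SA_sc304 : SC2 13 304 668832791 56 :=
  SC2.trans SA_sc234
    (SC2.of_scan 510510 234 304 41533753 11 (by decide +kernel) (by norm_num) (by decide +kernel) (by decide +kernel))

lemma SA_sc394 : SC2 13 394 712235028 71 :=
  SC2.trans SA_sc304
    (SC2.of_scan 9699690 304 394 43402237 15 (by decide +kernel) (by norm_num) (by decide +kernel) (by decide +kernel))

lemma SA_sc511 : SC2 13 511 756639663 91 :=
  SC2.trans SA_sc394
    (SC2.of_scan 9699690 394 511 44404635 20 (by decide +kernel) (by norm_num) (by decide +kernel) (by decide +kernel))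

lemma SA_sc663 : SC2 13 663 797006745 115 :=
  SC2.trans SA_sc511
    (SC2.of_scan 223092870 511 663 40367082 24 (by decide +kernel) (by norm_num) (by decide +kernel) (by decide +kernel))

lemma SA_sc861 : SC2 13 861 833646649 143 :=
  SC2.trans SA_sc663
    (SC2.of_scan 6469693230 663 861 36639904 28 (by decide +kernel) (by norm_num) (by decide +kernel) (by decide +kernel))

lemma SA_sc1116 : SC2 13 1116 871091890 180 :=
  SC2.trans SA_sc861
    (SC2.of_scan 200560490130 861 1116 37445241 37 (by decide +kernel) (by norm_num) (by decide +kernel) (by decide +kernel))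

lemma SA_sc1448 : SC2 13 1448 904832580 223 :=
  SC2.trans SA_sc1116
    (SC2.of_scan 7420738134810 1116 1448 33740690 43 (by decide +kernel) (by norm_num) (by decide +kernel) (by decide +kernel))

theorem blk7 (x a y : ℕ) (hx1 : 2 ^ 7 ≤ x) (hx2 : x < 2 ^ (7 + 1)) (hy1 : y ^ 8 ≤ x ^ 3) :
    (x : ℝ) / (5 * Real.log x) ≤ ((RG a (a + (x - 1)) y).card : ℝ) := by
  refine block 7 13 SA SA_prime (((0 : ℕ) : ℝ) / 10 ^ 9) 0 0.191808 (by norm_num) SA_prod
    ?_ ?_ (by norm_num) (by norm_num) (by norm_num) ?_ x a y hx1 hx2 hy1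
  · refine (Finset.sum_le_sum_of_subset_of_nonneg (SA_sub 13) ?_).trans SA_sc13.2.1
    intro _ _ _
    positivity
  · exact_mod_cast (Finset.card_le_card (SA_sub 13)).trans SA_sc13.2.2
  · rw [SA_card]
    norm_num

theorem blk8 (x a y : ℕ) (hx1 : 2 ^ 8 ≤ x) (hx2 : x < 2 ^ (8 + 1)) (hy1 : y ^ 8 ≤ x ^ 3) :
    (x : ℝ) / (5 * Real.log x) ≤ ((RG a (a + (x - 1)) y).card : ℝ) := by
  refine block 8 13 SA SA_prime (((0 : ℕ) : ℝ) / 10 ^ 9) 0 0.191808 (by norm_num) SA_prod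
    ?_ ?_ (by norm_num) (by norm_num) (by norm_num) ?_ x a y hx1 hx2 hy1
  · refine (Finset.sum_le_sum_of_subset_of_nonneg (SA_sub 13) ?_).trans SA_sc13.2.1
    intro _ _ _
    positivity
  · exact_mod_cast (Finset.card_le_card (SA_sub 13)).trans SA_sc13.2.2
  · rw [SA_card]
    norm_num

theorem blk9 (x a y : ℕ) (hx1 : 2 ^ 9 ≤ x) (hx2 : x < 2 ^ (9 + 1)) (hy1 : y ^ 8 ≤ x ^ 3) :
    (x : ℝ) / (5 * Real.log x) ≤ ((RG a (a + (x - 1)) y).card : ℝ) := by
  refine block 9 13 SA SA_prime (((0 : ℕ) : ℝ) / 10 ^ 9) 0 0.191808 (by norm_num) SA_prod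
    ?_ ?_ (by norm_num) (by norm_num) (by norm_num) ?_ x a y hx1 hx2 hy1
  · refine (Finset.sum_le_sum_of_subset_of_nonneg (SA_sub 13) ?_).trans SA_sc13.2.1
    intro _ _ _
    positivity
  · exact_mod_cast (Finset.card_le_card (SA_sub 13)).trans SA_sc13.2.2
  · rw [SA_card]
    norm_num

theorem blk10 (x a y : ℕ) (hx1 : 2 ^ 10 ≤ x) (hx2 : x < 2 ^ (10 + 1)) (hy1 : y ^ 8 ≤ x ^ 3) :
    (x : ℝ) / (5 * Real.log x) ≤ ((RG a (a + (x - 1)) y).card : ℝ) := by
  refine block 10 17 SA SA_prime (((58823530 : ℕ) : ℝ) / 10 ^ 9) 1 0.191808 (by norm_num) SA_prod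
    ?_ ?_ (by norm_num) (by norm_num) (by norm_num) ?_ x a y hx1 hx2 hy1
  · refine (Finset.sum_le_sum_of_subset_of_nonneg (SA_sub 17) ?_).trans SA_sc17.2.1
    intro _ _ _
    positivity
  · exact_mod_cast (Finset.card_le_card (SA_sub 17)).trans SA_sc17.2.2
  · rw [SA_card]
    norm_num

theorem blk11 (x a y : ℕ) (hx1 : 2 ^ 11 ≤ x) (hx2 : x < 2 ^ (11 + 1)) (hy1 : y ^ 8 ≤ x ^ 3) :
    (x : ℝ) / (5 * Real.log x) ≤ ((RG a (a + (x - 1)) y).card : ℝ) := by
  refine block 11 22 SA SA_prime (((111455109 : ℕ) : ℝ) / 10 ^ 9) 2 0.191808 (by norm_num) SA_prod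
    ?_ ?_ (by norm_num) (by norm_num) (by norm_num) ?_ x a y hx1 hx2 hy1
  · refine (Finset.sum_le_sum_of_subset_of_nonneg (SA_sub 22) ?_).trans SA_sc22.2.1
    intro _ _ _
    positivity
  · exact_mod_cast (Finset.card_le_card (SA_sub 22)).trans SA_sc22.2.2
  · rw [SA_card]
    norm_num

theorem blk12 (x a y : ℕ) (hx1 : 2 ^ 12 ≤ x) (hx2 : x < 2 ^ (12 + 1)) (hy1 : y ^ 8 ≤ x ^ 3) :
    (x : ℝ) / (5 * Real.log x) ≤ ((RG a (a + (x - 1)) y).card : ℝ) := by
  refine block 12 29 SA SA_prime (((189416129 : ℕ) : ℝ) / 10 ^ 9) 4 0.191808 (by norm_num) SA_prod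
    ?_ ?_ (by norm_num) (by norm_num) (by norm_num) ?_ x a y hx1 hx2 hy1
  · refine (Finset.sum_le_sum_of_subset_of_nonneg (SA_sub 29) ?_).trans SA_sc29.2.1
    intro _ _ _
    positivity
  · exact_mod_cast (Finset.card_le_card (SA_sub 29)).trans SA_sc29.2.2
  · rw [SA_card]
    norm_num

theorem blk13 (x a y : ℕ) (hx1 : 2 ^ 13 ≤ x) (hx2 : x < 2 ^ (13 + 1)) (hy1 : y ^ 8 ≤ x ^ 3) :
    (x : ℝ) / (5 * Real.log x) ≤ ((RG a (a + (x - 1)) y).card : ℝ) := by
  refine block 13 38 SA SA_prime (((248701222 : ℕ) : ℝ) / 10 ^ 9) 6 0.191808 (by norm_num) SA_prod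
    ?_ ?_ (by norm_num) (by norm_num) (by norm_num) ?_ x a y hx1 hx2 hy1
  · refine (Finset.sum_le_sum_of_subset_of_nonneg (SA_sub 38) ?_).trans SA_sc38.2.1
    intro _ _ _
    positivity
  · exact_mod_cast (Finset.card_le_card (SA_sub 38)).trans SA_sc38.2.2
  · rw [SA_card]
    norm_num

theorem blk14 (x a y : ℕ) (hx1 : 2 ^ 14 ≤ x) (hx2 : x < 2 ^ (14 + 1)) (hy1 : y ^ 8 ≤ x ^ 3) :
    (x : ℝ) / (5 * Real.log x) ≤ ((RG a (a + (x - 1)) y).card : ℝ) := by
  refine block 14 49 SA SA_prime (((317623876 : ℕ) : ℝ) / 10 ^ 9) 9 0.191808 (by norm_num) SA_prod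
    ?_ ?_ (by norm_num) (by norm_num) (by norm_num) ?_ x a y hx1 hx2 hy1
  · refine (Finset.sum_le_sum_of_subset_of_nonneg (SA_sub 49) ?_).trans SA_sc49.2.1
    intro _ _ _
    positivity
  · exact_mod_cast (Finset.card_le_card (SA_sub 49)).trans SA_sc49.2.2
  · rw [SA_card]
    norm_num

theorem blk15 (x a y : ℕ) (hx1 : 2 ^ 15 ≤ x) (hx2 : x < 2 ^ (15 + 1)) (hy1 : y ^ 8 ≤ x ^ 3) :
    (x : ℝ) / (5 * Real.log x) ≤ ((RG a (a + (x - 1)) y).card : ℝ) := by
  refine block 15 63 SA SA_prime (((369834397 : ℕ) : ℝ) / 10 ^ 9) 12 0.191808 (by norm_num) SA_prod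
    ?_ ?_ (by norm_num) (by norm_num) (by norm_num) ?_ x a y hx1 hx2 hy1
  · refine (Finset.sum_le_sum_of_subset_of_nonneg (SA_sub 63) ?_).trans SA_sc63.2.1
    intro _ _ _
    positivity
  · exact_mod_cast (Finset.card_le_card (SA_sub 63)).trans SA_sc63.2.2
  · rw [SA_card]
    norm_num

theorem blk16 (x a y : ℕ) (hx1 : 2 ^ 16 ≤ x) (hx2 : x < 2 ^ (16 + 1)) (hy1 : y ^ 8 ≤ x ^ 3) :
    (x : ℝ) / (5 * Real.log x) ≤ ((RG a (a + (x - 1)) y).card : ℝ) := by
  refine block 16 82 SA SA_prime (((425201138 : ℕ) : ℝ) / 10 ^ 9) 16 0.191808 (by norm_num) SA_prod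
    ?_ ?_ (by norm_num) (by norm_num) (by norm_num) ?_ x a y hx1 hx2 hy1
  · refine (Finset.sum_le_sum_of_subset_of_nonneg (SA_sub 82) ?_).trans SA_sc82.2.1
    intro _ _ _
    positivity
  · exact_mod_cast (Finset.card_le_card (SA_sub 82)).trans SA_sc82.2.2
  · rw [SA_card]
    norm_num

theorem blk17 (x a y : ℕ) (hx1 : 2 ^ 17 ≤ x) (hx2 : x < 2 ^ (17 + 1)) (hy1 : y ^ 8 ≤ x ^ 3) :
    (x : ℝ) / (5 * Real.log x) ≤ ((RG a (a + (x - 1)) y).card : ℝ) := by
  refine block 17 107 SA SA_prime (((487750090 : ℕ) : ℝ) / 10 ^ 9) 22 0.191808 (by norm_num) SA_prod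
    ?_ ?_ (by norm_num) (by norm_num) (by norm_num) ?_ x a y hx1 hx2 hy1
  · refine (Finset.sum_le_sum_of_subset_of_nonneg (SA_sub 107) ?_).trans SA_sc107.2.1
    intro _ _ _
    positivity
  · exact_mod_cast (Finset.card_le_card (SA_sub 107)).trans SA_sc107.2.2
  · rw [SA_card]
    norm_num

theorem blk18 (x a y : ℕ) (hx1 : 2 ^ 18 ≤ x) (hx2 : x < 2 ^ (18 + 1)) (hy1 : y ^ 8 ≤ x ^ 3) :
    (x : ℝ) / (5 * Real.log x) ≤ ((RG a (a + (x - 1)) y).card : ℝ) := by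
  refine block 18 139 SA SA_prime (((535775080 : ℕ) : ℝ) / 10 ^ 9) 28 0.191808 (by norm_num) SA_prod
    ?_ ?_ (by norm_num) (by norm_num) (by norm_num) ?_ x a y hx1 hx2 hy1
  · refine (Finset.sum_le_sum_of_subset_of_nonneg (SA_sub 139) ?_).trans SA_sc139.2.1
    intro _ _ _
    positivity
  · exact_mod_cast (Finset.card_le_card (SA_sub 139)).trans SA_sc139.2.2
  · rw [SA_card]
    norm_num

theorem blk19 (x a y : ℕ) (hx1 : 2 ^ 19 ≤ x) (hx2 : x < 2 ^ (19 + 1)) (hy1 : y ^ 8 ≤ x ^ 3) :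
    (x : ℝ) / (5 * Real.log x) ≤ ((RG a (a + (x - 1)) y).card : ℝ) := by
  refine block 19 181 SA SA_prime (((584493230 : ℕ) : ℝ) / 10 ^ 9) 36 0.191808 (by norm_num) SA_prod
    ?_ ?_ (by norm_num) (by norm_num) (by norm_num) ?_ x a y hx1 hx2 hy1
  · refine (Finset.sum_le_sum_of_subset_of_nonneg (SA_sub 181) ?_).trans SA_sc181.2.1
    intro _ _ _
    positivity
  · exact_mod_cast (Finset.card_le_card (SA_sub 181)).trans SA_sc181.2.2
  · rw [SA_card]
    norm_num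

theorem blk20 (x a y : ℕ) (hx1 : 2 ^ 20 ≤ x) (hx2 : x < 2 ^ (20 + 1)) (hy1 : y ^ 8 ≤ x ^ 3) :
    (x : ℝ) / (5 * Real.log x) ≤ ((RG a (a + (x - 1)) y).card : ℝ) := by
  refine block 20 234 SA SA_prime (((627299038 : ℕ) : ℝ) / 10 ^ 9) 45 0.191808 (by norm_num) SA_prod
    ?_ ?_ (by norm_num) (by norm_num) (by norm_num) ?_ x a y hx1 hx2 hy1
  · refine (Finset.sum_le_sum_of_subset_of_nonneg (SA_sub 234) ?_).trans SA_sc234.2.1
    intro _ _ _
    positivity
  · exact_mod_cast (Finset.card_le_card (SA_sub 234)).trans SA_sc234.2.2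
  · rw [SA_card]
    norm_num

theorem blk21 (x a y : ℕ) (hx1 : 2 ^ 21 ≤ x) (hx2 : x < 2 ^ (21 + 1)) (hy1 : y ^ 8 ≤ x ^ 3) :
    (x : ℝ) / (5 * Real.log x) ≤ ((RG a (a + (x - 1)) y).card : ℝ) := by
  refine block 21 304 SA SA_prime (((668832791 : ℕ) : ℝ) / 10 ^ 9) 56 0.191808 (by norm_num) SA_prod
    ?_ ?_ (by norm_num) (by norm_num) (by norm_num) ?_ x a y hx1 hx2 hy1
  · refine (Finset.sum_le_sum_of_subset_of_nonneg (SA_sub 304) ?_).trans SA_sc304.2.1
    intro _ _ _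
    positivity
  · exact_mod_cast (Finset.card_le_card (SA_sub 304)).trans SA_sc304.2.2
  · rw [SA_card]
    norm_num

theorem blk22 (x a y : ℕ) (hx1 : 2 ^ 22 ≤ x) (hx2 : x < 2 ^ (22 + 1)) (hy1 : y ^ 8 ≤ x ^ 3) :
    (x : ℝ) / (5 * Real.log x) ≤ ((RG a (a + (x - 1)) y).card : ℝ) := by
  refine block 22 394 SA SA_prime (((712235028 : ℕ) : ℝ) / 10 ^ 9) 71 0.191808 (by norm_num) SA_prod
    ?_ ?_ (by norm_num) (by norm_num) (by norm_num) ?_ x a y hx1 hx2 hy1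
  · refine (Finset.sum_le_sum_of_subset_of_nonneg (SA_sub 394) ?_).trans SA_sc394.2.1
    intro _ _ _
    positivity
  · exact_mod_cast (Finset.card_le_card (SA_sub 394)).trans SA_sc394.2.2
  · rw [SA_card]
    norm_num

theorem blk23 (x a y : ℕ) (hx1 : 2 ^ 23 ≤ x) (hx2 : x < 2 ^ (23 + 1)) (hy1 : y ^ 8 ≤ x ^ 3) :
    (x : ℝ) / (5 * Real.log x) ≤ ((RG a (a + (x - 1)) y).card : ℝ) := by
  refine block 23 511 SA SA_prime (((756639663 : ℕ) : ℝ) / 10 ^ 9) 91 0.191808 (by norm_num) SA_prod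
    ?_ ?_ (by norm_num) (by norm_num) (by norm_num) ?_ x a y hx1 hx2 hy1
  · refine (Finset.sum_le_sum_of_subset_of_nonneg (SA_sub 511) ?_).trans SA_sc511.2.1
    intro _ _ _
    positivity
  · exact_mod_cast (Finset.card_le_card (SA_sub 511)).trans SA_sc511.2.2
  · rw [SA_card]
    norm_num

theorem blk24 (x a y : ℕ) (hx1 : 2 ^ 24 ≤ x) (hx2 : x < 2 ^ (24 + 1)) (hy1 : y ^ 8 ≤ x ^ 3) :
    (x : ℝ) / (5 * Real.log x) ≤ ((RG a (a + (x - 1)) y).card : ℝ) := by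
  refine block 24 663 SA SA_prime (((797006745 : ℕ) : ℝ) / 10 ^ 9) 115 0.191808 (by norm_num) SA_prod
    ?_ ?_ (by norm_num) (by norm_num) (by norm_num) ?_ x a y hx1 hx2 hy1
  · refine (Finset.sum_le_sum_of_subset_of_nonneg (SA_sub 663) ?_).trans SA_sc663.2.1
    intro _ _ _
    positivity
  · exact_mod_cast (Finset.card_le_card (SA_sub 663)).trans SA_sc663.2.2
  · rw [SA_card]
    norm_num

theorem blk25 (x a y : ℕ) (hx1 : 2 ^ 25 ≤ x) (hx2 : x < 2 ^ (25 + 1)) (hy1 : y ^ 8 ≤ x ^ 3) :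
    (x : ℝ) / (5 * Real.log x) ≤ ((RG a (a + (x - 1)) y).card : ℝ) := by
  refine block 25 861 SA SA_prime (((833646649 : ℕ) : ℝ) / 10 ^ 9) 143 0.191808 (by norm_num) SA_prod
    ?_ ?_ (by norm_num) (by norm_num) (by norm_num) ?_ x a y hx1 hx2 hy1
  · refine (Finset.sum_le_sum_of_subset_of_nonneg (SA_sub 861) ?_).trans SA_sc861.2.1
    intro _ _ _
    positivity
  · exact_mod_cast (Finset.card_le_card (SA_sub 861)).trans SA_sc861.2.2
  · rw [SA_card]
    norm_num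

theorem blk26 (x a y : ℕ) (hx1 : 2 ^ 26 ≤ x) (hx2 : x < 2 ^ (26 + 1)) (hy1 : y ^ 8 ≤ x ^ 3) :
    (x : ℝ) / (5 * Real.log x) ≤ ((RG a (a + (x - 1)) y).card : ℝ) := by
  refine block 26 1116 SA SA_prime (((871091890 : ℕ) : ℝ) / 10 ^ 9) 180 0.191808 (by norm_num) SA_prod
    ?_ ?_ (by norm_num) (by norm_num) (by norm_num) ?_ x a y hx1 hx2 hy1
  · refine (Finset.sum_le_sum_of_subset_of_nonneg (SA_sub 1116) ?_).trans SA_sc1116.2.1
    intro _ _ _
    positivity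
  · exact_mod_cast (Finset.card_le_card (SA_sub 1116)).trans SA_sc1116.2.2
  · rw [SA_card]
    norm_num

theorem blk27 (x a y : ℕ) (hx1 : 2 ^ 27 ≤ x) (hx2 : x < 2 ^ (27 + 1)) (hy1 : y ^ 8 ≤ x ^ 3) :
    (x : ℝ) / (5 * Real.log x) ≤ ((RG a (a + (x - 1)) y).card : ℝ) := by
  refine block 27 1448 SA SA_prime (((904832580 : ℕ) : ℝ) / 10 ^ 9) 223 0.191808 (by norm_num) SA_prod
    ?_ ?_ (by norm_num) (by norm_num) (by norm_num) ?_ x a y hx1 hx2 hy1
  · refine (Finset.sum_le_sum_of_subset_of_nonneg (SA_sub 1448) ?_).trans SA_sc1448.2.1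
    intro _ _ _
    positivity
  · exact_mod_cast (Finset.card_le_card (SA_sub 1448)).trans SA_sc1448.2.2
  · rw [SA_card]
    norm_num

end Pool.Agent.Lib.MP_bf4c7f
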