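import Mathlib
import Pool.Agent.Lib.MP_bf4c7f_rough.First

/-!
# The range `x < 2 ^ 41`: the dyadic blocks
-/

set_option autoImplicit false
set_option exponentiation.threshold 500

namespace Pool.Agent.Lib.MP_bf4c7f

open Finset

/-- the primes from 7 to 43 -/
def SB : Finset ℕ := {7, 11, 13, 17, 19, 23, 29, 31, 37, 41, 43}

lemma SB_prime : ∀ q ∈ SB, q.Prime ∧ 7 ≤ q := by
  intro q hq
  simp only [SB, mem_insert, mem_singleton] at hq
  rcases hq with rfl | rfl | rfl | rfl | rfl | rfl | rfl | rfl | rfl | rfl | rfl <;> norm_num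

lemma SB_card : SB.card = 11 := by decide

lemma SB_sub (Z : ℕ) : P7 Z \ SB ⊆ (Ioc 43 Z).filter Nat.Prime := by
  intro p hp
  rw [mem_sdiff, mem_P7] at hp
  rw [mem_filter, mem_Ioc]
  refine ⟨⟨?_, hp.1.2.2⟩, hp.1.1⟩
  by_contra hlt
  have h1 : p ≤ 43 := not_lt.1 hlt
  obtain ⟨⟨hp1, hp2, -⟩, hp3⟩ := hp
  interval_cases p <;> revert hp1 hp3 <;> first | decide | norm_num

lemma SB_prod : (0.141719 : ℝ) ≤ 4 / 15 * ∏ q ∈ SB, (1 - 1 / (q : ℝ)) := by
  have h : ∏ q ∈ SB, (1 - 1 / (q : ℝ)) = 3009871872000 / 5663533044013 := by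
    unfold SB
    repeat rw [Finset.prod_insert (by decide)]
    rw [Finset.prod_singleton]
    norm_num
  rw [h]
  norm_num

lemma SB_sc1878 : SC2 43 1878 644364956 274 :=
  SC2.of_scan 13082761331670030 43 1878 644364956 274 (by decide +kernel) (by norm_num) (by decide +kernel) (by decide +kernel)

lemma SB_sc2435 : SC2 43 2435 677834682 346 :=
  SC2.trans SB_sc1878
    (SC2.of_scan 614889782588491410 1878 2435 33469726 72 (by decide +kernel) (by norm_num) (by decide +kernel) (by decide +kernel))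

lemma SB_sc3158 : SC2 43 3158 708900191 432 :=
  SC2.trans SB_sc2435
    (SC2.of_scan 32589158477190044730 2435 3158 31065509 86 (by decide +kernel) (by norm_num) (by decide +kernel) (by decide +kernel))

lemma SB_sc4095 : SC2 43 4095 741677472 550 :=
  SC2.trans SB_sc3158
    (SC2.of_scan 117288381359406970983270 3158 4095 32777281 118 (by decide +kernel) (by norm_num) (by decide +kernel) (by decide +kernel))

lemma SB_sc5311 : SC2 43 5311 771613996 690 :=
  SC2.trans SB_sc4095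
    (SC2.of_scan 557940830126698960967415390 4095 5311 29936524 140 (by decide +kernel) (by norm_num) (by decide +kernel) (by decide +kernel))

lemma SB_sc6888 : SC2 43 6888 801632604 872 :=
  SC2.trans SB_sc5311
    (SC2.of_scan 3217644767340672907899084554130 5311 6888 30018608 182 (by decide +kernel) (by norm_num) (by decide +kernel) (by decide +kernel))

lemma SB_sc8933 : SC2 43 8933 830205860 1097 :=
  SC2.trans SB_sc6888
    (SC2.of_scan 23768741896345550770650537601358310 6888 8933 28573256 225 (by decide +kernel) (by norm_num) (by decide +kernel) (by decide +kernel))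

lemma SB_sc11585 : SC2 43 11585 857940475 1379 :=
  SC2.trans SB_sc8933
    (SC2.of_scan 2566376117594999414479597815340071648394470 8933 11585 27734615 282 (by decide +kernel) (by norm_num) (by decide +kernel) (by decide +kernel))

theorem blk28 (x a y : ℕ) (hx1 : 2 ^ 28 ≤ x) (hx2 : x < 2 ^ (28 + 1)) (hy1 : y ^ 8 ≤ x ^ 3) :
    (x : ℝ) / (5 * Real.log x) ≤ ((RG a (a + (x - 1)) y).card : ℝ) := by
  refine block 28 1878 SB SB_prime (((644364956 : ℕ) : ℝ) / 10 ^ 9) 274 0.141719 (by norm_num) SB_prod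
    ?_ ?_ (by norm_num) (by norm_num) (by norm_num) ?_ x a y hx1 hx2 hy1
  · refine (Finset.sum_le_sum_of_subset_of_nonneg (SB_sub 1878) ?_).trans SB_sc1878.2.1
    intro _ _ _
    positivity
  · exact_mod_cast (Finset.card_le_card (SB_sub 1878)).trans SB_sc1878.2.2
  · rw [SB_card]
    norm_num

theorem blk29 (x a y : ℕ) (hx1 : 2 ^ 29 ≤ x) (hx2 : x < 2 ^ (29 + 1)) (hy1 : y ^ 8 ≤ x ^ 3) :
    (x : ℝ) / (5 * Real.log x) ≤ ((RG a (a + (x - 1)) y).card : ℝ) := by
  refine block 29 2435 SB SB_prime (((677834682 : ℕ) : ℝ) / 10 ^ 9) 346 0.141719 (by norm_num) SB_prod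
    ?_ ?_ (by norm_num) (by norm_num) (by norm_num) ?_ x a y hx1 hx2 hy1
  · refine (Finset.sum_le_sum_of_subset_of_nonneg (SB_sub 2435) ?_).trans SB_sc2435.2.1
    intro _ _ _
    positivity
  · exact_mod_cast (Finset.card_le_card (SB_sub 2435)).trans SB_sc2435.2.2
  · rw [SB_card]
    norm_num

theorem blk30 (x a y : ℕ) (hx1 : 2 ^ 30 ≤ x) (hx2 : x < 2 ^ (30 + 1)) (hy1 : y ^ 8 ≤ x ^ 3) :
    (x : ℝ) / (5 * Real.log x) ≤ ((RG a (a + (x - 1)) y).card : ℝ) := by
  refine block 30 3158 SB SB_prime (((708900191 : ℕ) : ℝ) / 10 ^ 9) 432 0.141719 (by norm_num) SB_prod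
    ?_ ?_ (by norm_num) (by norm_num) (by norm_num) ?_ x a y hx1 hx2 hy1
  · refine (Finset.sum_le_sum_of_subset_of_nonneg (SB_sub 3158) ?_).trans SB_sc3158.2.1
    intro _ _ _
    positivity
  · exact_mod_cast (Finset.card_le_card (SB_sub 3158)).trans SB_sc3158.2.2
  · rw [SB_card]
    norm_num

theorem blk31 (x a y : ℕ) (hx1 : 2 ^ 31 ≤ x) (hx2 : x < 2 ^ (31 + 1)) (hy1 : y ^ 8 ≤ x ^ 3) :
    (x : ℝ) / (5 * Real.log x) ≤ ((RG a (a + (x - 1)) y).card : ℝ) := by
  refine block 31 4095 SB SB_prime (((741677472 : ℕ) : ℝ) / 10 ^ 9) 550 0.141719 (by norm_num) SB_prod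
    ?_ ?_ (by norm_num) (by norm_num) (by norm_num) ?_ x a y hx1 hx2 hy1
  · refine (Finset.sum_le_sum_of_subset_of_nonneg (SB_sub 4095) ?_).trans SB_sc4095.2.1
    intro _ _ _
    positivity
  · exact_mod_cast (Finset.card_le_card (SB_sub 4095)).trans SB_sc4095.2.2
  · rw [SB_card]
    norm_num

theorem blk32 (x a y : ℕ) (hx1 : 2 ^ 32 ≤ x) (hx2 : x < 2 ^ (32 + 1)) (hy1 : y ^ 8 ≤ x ^ 3) :
    (x : ℝ) / (5 * Real.log x) ≤ ((RG a (a + (x - 1)) y).card : ℝ) := by
  refine block 32 5311 SB SB_prime (((771613996 : ℕ) : ℝ) / 10 ^ 9) 690 0.141719 (by norm_num) SB_prod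
    ?_ ?_ (by norm_num) (by norm_num) (by norm_num) ?_ x a y hx1 hx2 hy1
  · refine (Finset.sum_le_sum_of_subset_of_nonneg (SB_sub 5311) ?_).trans SB_sc5311.2.1
    intro _ _ _
    positivity
  · exact_mod_cast (Finset.card_le_card (SB_sub 5311)).trans SB_sc5311.2.2
  · rw [SB_card]
    norm_num

theorem blk33 (x a y : ℕ) (hx1 : 2 ^ 33 ≤ x) (hx2 : x < 2 ^ (33 + 1)) (hy1 : y ^ 8 ≤ x ^ 3) :
    (x : ℝ) / (5 * Real.log x) ≤ ((RG a (a + (x - 1)) y).card : ℝ) := by
  refine block 33 6888 SB SB_prime (((801632604 : ℕ) : ℝ) / 10 ^ 9) 872 0.141719 (by norm_num) SB_prod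
    ?_ ?_ (by norm_num) (by norm_num) (by norm_num) ?_ x a y hx1 hx2 hy1
  · refine (Finset.sum_le_sum_of_subset_of_nonneg (SB_sub 6888) ?_).trans SB_sc6888.2.1
    intro _ _ _
    positivity
  · exact_mod_cast (Finset.card_le_card (SB_sub 6888)).trans SB_sc6888.2.2
  · rw [SB_card]
    norm_num

theorem blk34 (x a y : ℕ) (hx1 : 2 ^ 34 ≤ x) (hx2 : x < 2 ^ (34 + 1)) (hy1 : y ^ 8 ≤ x ^ 3) :
    (x : ℝ) / (5 * Real.log x) ≤ ((RG a (a + (x - 1)) y).card : ℝ) := by
  refine block 34 8933 SB SB_prime (((830205860 : ℕ) : ℝ) / 10 ^ 9) 1097 0.141719 (by norm_num) SB_prod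
    ?_ ?_ (by norm_num) (by norm_num) (by norm_num) ?_ x a y hx1 hx2 hy1
  · refine (Finset.sum_le_sum_of_subset_of_nonneg (SB_sub 8933) ?_).trans SB_sc8933.2.1
    intro _ _ _
    positivity
  · exact_mod_cast (Finset.card_le_card (SB_sub 8933)).trans SB_sc8933.2.2
  · rw [SB_card]
    norm_num

theorem blk35 (x a y : ℕ) (hx1 : 2 ^ 35 ≤ x) (hx2 : x < 2 ^ (35 + 1)) (hy1 : y ^ 8 ≤ x ^ 3) :
    (x : ℝ) / (5 * Real.log x) ≤ ((RG a (a + (x - 1)) y).card : ℝ) := by
  refine block 35 11585 SB SB_prime (((857940475 : ℕ) : ℝ) / 10 ^ 9) 1379 0.141719 (by norm_num) SB_prod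
    ?_ ?_ (by norm_num) (by norm_num) (by norm_num) ?_ x a y hx1 hx2 hy1
  · refine (Finset.sum_le_sum_of_subset_of_nonneg (SB_sub 11585) ?_).trans SB_sc11585.2.1
    intro _ _ _
    positivity
  · exact_mod_cast (Finset.card_le_card (SB_sub 11585)).trans SB_sc11585.2.2
  · rw [SB_card]
    norm_num

/-- the primes from 7 to 61 -/
def SD : Finset ℕ := {7, 11, 13, 17, 19, 23, 29, 31, 37, 41, 43, 47, 53, 59, 61}

lemma SD_prime : ∀ q ∈ SD, q.Prime ∧ 7 ≤ q := by
  intro q hq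
  simp only [SD, mem_insert, mem_singleton] at hq
  rcases hq with rfl | rfl | rfl | rfl | rfl | rfl | rfl | rfl | rfl | rfl | rfl | rfl | rfl | rfl | rfl <;> norm_num

lemma SD_card : SD.card = 15 := by decide

lemma SD_sub (Z : ℕ) : P7 Z \ SD ⊆ (Ioc 61 Z).filter Nat.Prime := by
  intro p hp
  rw [mem_sdiff, mem_P7] at hp
  rw [mem_filter, mem_Ioc]
  refine ⟨⟨?_, hp.1.2.2⟩, hp.1.1⟩
  by_contra hlt
  have h1 : p ≤ 61 := not_lt.1 hlt
  obtain ⟨⟨hp1, hp2, -⟩, hp3⟩ := hp
  interval_cases p <;> revert hp1 hp3 <;> first | decide | norm_num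

lemma SD_prod : (0.131587 : ℝ) ≤ 4 / 15 * ∏ q ∈ SD, (1 - 1 / (q : ℝ)) := by
  have h : ∏ q ∈ SD, (1 - 1 / (q : ℝ)) = 2889476997120000 / 5855632691117327 := by
    unfold SD
    repeat rw [Finset.prod_insert (by decide)]
    rw [Finset.prod_singleton]
    norm_num
  rw [h]
  norm_num

lemma SD_sc4488 : SC2 61 4488 678686043 591 :=
  SC2.of_scan 117288381359406970983270 61 4488 678686043 591 (by decide +kernel) (by norm_num) (by decide +kernel) (by decide +kernel)

lemma SD_sc15024 : SC2 61 15024 811930109 1738 :=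
  SC2.trans SD_sc4488
    (SC2.of_scan 31610054640417607788145206291543662493274686990 4488 15024 133244066 1147 (by decide +kernel) (by norm_num) (by decide +kernel) (by decide +kernel))

lemma SD_sc19483 : SC2 61 19483 838496908 2193 :=
  SC2.trans SD_sc15024
    (SC2.of_scan 10014646650599190067509233131649940057366334653200433090 15024 19483 26566799 455 (by decide +kernel) (by norm_num) (by decide +kernel) (by decide +kernel))

lemma SD_sc25267 : SC2 61 25267 864455758 2770 :=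
  SC2.trans SD_sc19483
    (SC2.of_scan 35375166993717494840635767087951744212057570647889977422429870 19483 25267 25958850 577 (by decide +kernel) (by norm_num) (by decide +kernel) (by decide +kernel))

lemma SD_sc32767 : SC2 61 32767 889561343 3494 :=
  SC2.trans SD_sc25267
    (SC2.of_scan 5397346292805549782720214077673687806275517530364350655459511599582614290 25267 32767 25105585 724 (by decide +kernel) (by norm_num) (by decide +kernel) (by decide +kernel))

lemma SD_sc42494 : SC2 61 42494 914522342 4428 :=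
  SC2.trans SD_sc32767
    (SC2.of_scan 7799922041683461553249199106329813876687996789903550945093032474868511536164700810 32767 42494 24960999 934 (by decide +kernel) (by norm_num) (by decide +kernel) (by decide +kernel))

theorem blk36 (x a y : ℕ) (hx1 : 2 ^ 36 ≤ x) (hx2 : x < 2 ^ (36 + 1)) (hy1 : y ^ 8 ≤ x ^ 3) :
    (x : ℝ) / (5 * Real.log x) ≤ ((RG a (a + (x - 1)) y).card : ℝ) := by
  refine block 36 15024 SD SD_prime (((811930109 : ℕ) : ℝ) / 10 ^ 9) 1738 0.131587 (by norm_num) SD_prod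
    ?_ ?_ (by norm_num) (by norm_num) (by norm_num) ?_ x a y hx1 hx2 hy1
  · refine (Finset.sum_le_sum_of_subset_of_nonneg (SD_sub 15024) ?_).trans SD_sc15024.2.1
    intro _ _ _
    positivity
  · exact_mod_cast (Finset.card_le_card (SD_sub 15024)).trans SD_sc15024.2.2
  · rw [SD_card]
    norm_num

theorem blk37 (x a y : ℕ) (hx1 : 2 ^ 37 ≤ x) (hx2 : x < 2 ^ (37 + 1)) (hy1 : y ^ 8 ≤ x ^ 3) :
    (x : ℝ) / (5 * Real.log x) ≤ ((RG a (a + (x - 1)) y).card : ℝ) := by
  refine block 37 19483 SD SD_prime (((838496908 : ℕ) : ℝ) / 10 ^ 9) 2193 0.131587 (by norm_num) SD_prod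
    ?_ ?_ (by norm_num) (by norm_num) (by norm_num) ?_ x a y hx1 hx2 hy1
  · refine (Finset.sum_le_sum_of_subset_of_nonneg (SD_sub 19483) ?_).trans SD_sc19483.2.1
    intro _ _ _
    positivity
  · exact_mod_cast (Finset.card_le_card (SD_sub 19483)).trans SD_sc19483.2.2
  · rw [SD_card]
    norm_num

theorem blk38 (x a y : ℕ) (hx1 : 2 ^ 38 ≤ x) (hx2 : x < 2 ^ (38 + 1)) (hy1 : y ^ 8 ≤ x ^ 3) :
    (x : ℝ) / (5 * Real.log x) ≤ ((RG a (a + (x - 1)) y).card : ℝ) := by
  refine block 38 25267 SD SD_prime (((864455758 : ℕ) : ℝ) / 10 ^ 9) 2770 0.131587 (by norm_num) SD_prod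
    ?_ ?_ (by norm_num) (by norm_num) (by norm_num) ?_ x a y hx1 hx2 hy1
  · refine (Finset.sum_le_sum_of_subset_of_nonneg (SD_sub 25267) ?_).trans SD_sc25267.2.1
    intro _ _ _
    positivity
  · exact_mod_cast (Finset.card_le_card (SD_sub 25267)).trans SD_sc25267.2.2
  · rw [SD_card]
    norm_num

theorem blk39 (x a y : ℕ) (hx1 : 2 ^ 39 ≤ x) (hx2 : x < 2 ^ (39 + 1)) (hy1 : y ^ 8 ≤ x ^ 3) :
    (x : ℝ) / (5 * Real.log x) ≤ ((RG a (a + (x - 1)) y).card : ℝ) := by
  refine block 39 32767 SD SD_prime (((889561343 : ℕ) : ℝ) / 10 ^ 9) 3494 0.131587 (by norm_num) SD_prod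
    ?_ ?_ (by norm_num) (by norm_num) (by norm_num) ?_ x a y hx1 hx2 hy1
  · refine (Finset.sum_le_sum_of_subset_of_nonneg (SD_sub 32767) ?_).trans SD_sc32767.2.1
    intro _ _ _
    positivity
  · exact_mod_cast (Finset.card_le_card (SD_sub 32767)).trans SD_sc32767.2.2
  · rw [SD_card]
    norm_num

theorem blk40 (x a y : ℕ) (hx1 : 2 ^ 40 ≤ x) (hx2 : x < 2 ^ (40 + 1)) (hy1 : y ^ 8 ≤ x ^ 3) :
    (x : ℝ) / (5 * Real.log x) ≤ ((RG a (a + (x - 1)) y).card : ℝ) := by
  refine block 40 42494 SD SD_prime (((914522342 : ℕ) : ℝ) / 10 ^ 9) 4428 0.131587 (by norm_num) SD_prod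
    ?_ ?_ (by norm_num) (by norm_num) (by norm_num) ?_ x a y hx1 hx2 hy1
  · refine (Finset.sum_le_sum_of_subset_of_nonneg (SD_sub 42494) ?_).trans SD_sc42494.2.1
    intro _ _ _
    positivity
  · exact_mod_cast (Finset.card_le_card (SD_sub 42494)).trans SD_sc42494.2.2
  · rw [SD_card]
    norm_num

end Pool.Agent.Lib.MP_bf4c7f
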