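import Mathlib
import Pool.Agent.Lib.MP_bf4c7f_nt3.Mert
import Pool.Agent.Lib.MP_bf4c7f_nt3_h34.SmallSum

/-!
# Sums over primes
-/

set_option autoImplicit false

namespace Pool.Agent.Lib.MP_bf4c7f

open Finset

lemma lg13003 : 9.4728 ≤ Real.log 13003 ∧ Real.log 13003 ≤ 9.4731 := by
  have h1 := log_lo 13003 273331 (by norm_num) (by decide +kernel)
  have h2 := log_hi 13003 273332 (by norm_num) (by decide +kernel)
  have h3 := Real.log_two_gt_d9
  have h4 := Real.log_two_lt_d9
  push_cast at h1 h2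
  norm_num at h1 h2 h3 h4 ⊢
  constructor <;> linarith

lemma log_le_13003 (n : ℕ) (hn : 1 ≤ n) : Real.log n ≤ 8.4731 + (n : ℝ) / 13003 := by
  have hnR : (1 : ℝ) ≤ n := by exact_mod_cast hn
  have h4 : Real.log n = Real.log 13003 + Real.log ((n : ℝ) / 13003) := by
    rw [← Real.log_mul (by norm_num) (by positivity)]
    congr 1; field_simp
  have h5 : Real.log ((n : ℝ) / 13003) ≤ (n : ℝ) / 13003 - 1 :=
    Real.log_le_sub_one_of_pos (by positivity)
  have h6 := lg13003.2
  rw [h4]
  norm_num at h5 h6 ⊢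
  linarith

lemma Ls_lo_13002 (n : ℕ) (hn : 13002 ≤ n) : Real.log n - 0.917 ≤ Ls n := by
  have h := Ls_lower_gen n (by omega)
  have hnR : (13002 : ℝ) ≤ n := by exact_mod_cast hn
  have h3 := log_le_13003 n (by omega)
  have h4 : (31 + Real.log n / 2) / n ≤ 0.00277 := by
    rw [div_le_iff₀ (by linarith)]
    norm_num at h3 ⊢
    linarith
  norm_num at h h4 ⊢
  linarith

/-- Partial summation for the primes up to `b`, the weight function may decrease at the end. -/
theorem small_abel2 (A : ℝ) (b : ℕ) (hb : 13002 ≤ b) (hA : 3.4 ≤ A)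
    (hA2 : 8 / 45 * Real.log b ≤ A) :
    ∑ p ∈ P7 b, Real.log p / ((p : ℝ) - 1) * (A * Real.log p - 8 / 45 * Real.log p ^ 2) ≤
      A * Real.log b ^ 2 / 2 - 8 / 135 * Real.log b ^ 3 + 0.802 * (45 / 32) * A ^ 2
        - 3.176 * A + 0.908 := by
  set F : ℕ → ℝ := fun n => A * Real.log n - 8 / 45 * Real.log n ^ 2 with hF
  set ls : ℝ := 45 / 16 * A with hls
  set D : ℕ → ℝ := fun n => 8 / 45 * (max (Real.log n - ls) 0) ^ 2 with hD
  have hbR : (13002 : ℝ) ≤ b := by exact_mod_cast hb
  have hlb : 0 ≤ Real.log b := Real.log_nonneg (by linarith)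
  have hA0 : 0 ≤ A := by norm_num at hA; linarith
  have h1 := abel (fun k => if k.Prime then Real.log k / ((k : ℝ) - 1) else 0) F 6 b (by omega)
  have h2 : ∑ n ∈ Ioc 6 b, (if n.Prime then Real.log n / ((n : ℝ) - 1) else 0) * F n =
      ∑ p ∈ P7 b, Real.log p / ((p : ℝ) - 1) *
        (A * Real.log p - 8 / 45 * Real.log p ^ 2) := by
    have e1 : P7 b = (Ioc 6 b).filter Nat.Prime := by
      unfold P7
      congr 1
    rw [e1, Finset.sum_filter]
    apply Finset.sum_congr rfl
    intro n _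
    split_ifs with h
    · rfl
    · ring
  rw [h2] at h1
  rw [h1, sum_prime_term 6 b (by omega)]
  have h4 : ∑ n ∈ Ioo 6 b, (∑ k ∈ Ioc 6 n, (if k.Prime then Real.log k / ((k : ℝ) - 1) else 0)) *
      (F n - F (n + 1)) ≤ ∑ n ∈ Ioo 6 b,
        ((((fun j : ℕ => -(A * Real.log j ^ 2 / 2 - 16 / 135 * Real.log j ^ 3)) (n + 1) -
          (fun j : ℕ => -(A * Real.log j ^ 2 / 2 - 16 / 135 * Real.log j ^ 3)) n +
          A / 2 * (Real.log ((n : ℝ) + 1) - Real.log n) ^ 2) +
          (-1 - Ls 6) * (F n - F (n + 1))) + 0.802 * (D (n + 1) - D n)) := by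
    apply Finset.sum_le_sum
    intro n hn
    rw [mem_Ioo] at hn
    rw [sum_prime_term 6 n hn.1.le]
    have hnR : (7 : ℝ) ≤ n := by
      have : 7 ≤ n := by omega
      exact_mod_cast this
    have e0 : 0 ≤ Real.log n := Real.log_nonneg (by linarith)
    have e1 := log_succ_ge n (by omega)
    have e3 := Ls_lower n (by omega)
    have e4 := keySmall A (Real.log n) (Real.log ((n : ℝ) + 1)) e0 (by linarith)
    have e5 : F n = A * Real.log n - 8 / 45 * Real.log n ^ 2 := rfl
    have e6 : F (n + 1) = A * Real.log ((n : ℝ) + 1) - 8 / 45 * Real.log ((n : ℝ) + 1) ^ 2 := by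
      rw [hF]; push_cast; rfl
    have d1 : D n = 8 / 45 * (max (Real.log n - ls) 0) ^ 2 := rfl
    have d2 : D (n + 1) = 8 / 45 * (max (Real.log ((n : ℝ) + 1) - ls) 0) ^ 2 := by
      rw [hD]; push_cast; rfl
    have hDmono : D n ≤ D (n + 1) := by
      rw [d1, d2]
      have : max (Real.log n - ls) 0 ≤ max (Real.log ((n : ℝ) + 1) - ls) 0 :=
        max_le_max (by linarith) le_rfl
      have := pow_le_pow_left₀ (le_max_right _ _) this 2
      linarith
    have hfd : F n - F (n + 1) = (Real.log ((n : ℝ) + 1) - Real.log n) *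
        (8 / 45 * (Real.log n + Real.log ((n : ℝ) + 1)) - A) := by
      rw [e5, e6]
      ring
    rcases le_or_gt (F n - F (n + 1)) 0 with e7 | e7
    · have e8 := mul_le_mul_of_nonpos_right e3 e7
      rw [← e5, ← e6] at e4
      push_cast
      nlinarith
    · -- the decreasing part
      have e9 : 0 < 8 / 45 * (Real.log n + Real.log ((n : ℝ) + 1)) - A := by
        by_contra hcon
        have : F n - F (n + 1) ≤ 0 := by
          rw [hfd]
          exact mul_nonpos_of_nonneg_of_nonpos e1 (not_lt.1 hcon)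
        linarith
      have e10 : ls ≤ Real.log ((n : ℝ) + 1) := by
        rw [hls]
        linarith
      have hn4095 : 13002 ≤ n := by
        by_contra hlt
        have hn2 : (n : ℝ) + 1 ≤ 13003 := by
          have : n + 1 ≤ 13003 := by omega
          exact_mod_cast this
        have h3 : Real.log ((n : ℝ) + 1) ≤ Real.log 13003 := Real.log_le_log (by linarith) hn2
        have h6 := lg13003.2
        rw [hls] at e10
        norm_num at hA h6
        linarith
      have e11 := Ls_upper_10000 n (by omega)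
      have e12 : F n - F (n + 1) ≤ D (n + 1) - D n := by
        rw [hfd, d1, d2, max_eq_left (by linarith : (0 : ℝ) ≤ Real.log ((n : ℝ) + 1) - ls)]
        have hAe : A = 16 / 45 * ls := by rw [hls]; ring
        rcases le_total (Real.log n - ls) 0 with h | h
        · rw [max_eq_right h, hAe]
          nlinarith [sq_nonneg (Real.log n - ls)]
        · rw [max_eq_left h, hAe]
          apply le_of_eq
          ring
      have e13 := mul_le_mul_of_nonneg_right e11 e7.le
      rw [← e5, ← e6] at e4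
      push_cast
      norm_num at e13 ⊢
      nlinarith
  have h5 : ∑ n ∈ Ioo 6 b,
        ((((fun j : ℕ => -(A * Real.log j ^ 2 / 2 - 16 / 135 * Real.log j ^ 3)) (n + 1) -
          (fun j : ℕ => -(A * Real.log j ^ 2 / 2 - 16 / 135 * Real.log j ^ 3)) n +
          A / 2 * (Real.log ((n : ℝ) + 1) - Real.log n) ^ 2) +
          (-1 - Ls 6) * (F n - F (n + 1))) + 0.802 * (D (n + 1) - D n)) =
      (-(A * Real.log b ^ 2 / 2 - 16 / 135 * Real.log b ^ 3) +
        (A * Real.log 7 ^ 2 / 2 - 16 / 135 * Real.log 7 ^ 3)) +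
        A / 2 * ∑ n ∈ Ioo 6 b, (Real.log ((n : ℝ) + 1) - Real.log n) ^ 2 +
        (-1 - Ls 6) * (F 7 - F b) + 0.802 * (D b - D 7) := by
    rw [Finset.sum_add_distrib, Finset.sum_add_distrib, Finset.sum_add_distrib, ← Finset.mul_sum,
      ← Finset.mul_sum, ← Finset.mul_sum]
    have h6 := abel_single F 6 b (by omega)
    have h7 : ∑ n ∈ Ioo 6 b, (F n - F (n + 1)) = F 7 - F b := by
      norm_num at h6 ⊢
      linarith
    have h8 : Ioo 6 b = Ico 7 b := by
      ext j
      simp only [mem_Ioo, mem_Ico]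
      omega
    rw [h7, h8, tele (fun j : ℕ => -(A * Real.log j ^ 2 / 2 - 16 / 135 * Real.log j ^ 3)) 7 b
      (by omega), tele D 7 b (by omega)]
    push_cast
    ring
  rw [h5] at h4
  have h9 := sum_sq_log b (by omega)
  have h10 : A / 2 * ∑ n ∈ Ioo 6 b, (Real.log ((n : ℝ) + 1) - Real.log n) ^ 2 ≤ A / 2 * (2 / 13) :=
    mul_le_mul_of_nonneg_left h9 (by linarith)
  have e5 : F b = A * Real.log b - 8 / 45 * Real.log b ^ 2 := rfl
  have e6 : F 7 = A * Real.log 7 - 8 / 45 * Real.log 7 ^ 2 := by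
    rw [hF]; push_cast; rfl
  have hD7 : 0 ≤ D 7 := by
    exact mul_nonneg (by norm_num) (sq_nonneg _)
  have hDb : D b ≤ 8 / 45 * (Real.log b - ls) ^ 2 := by
    have : (max (Real.log b - ls) 0) ^ 2 ≤ (Real.log b - ls) ^ 2 := by
      rcases le_total (Real.log b - ls) 0 with h | h
      · rw [max_eq_right h, zero_pow two_ne_zero]
        exact sq_nonneg _
      · rw [max_eq_left h]
    change 8 / 45 * (max (Real.log b - ls) 0) ^ 2 ≤ _
    linarith
  have hFb : 0 ≤ F b := by
    rw [e5]
    have : 0 ≤ Real.log b * (A - 8 / 45 * Real.log b) := mul_nonneg hlb (by linarith)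
    nlinarith
  have h11 := mul_le_mul_of_nonneg_right (Ls_upper_10000 b (by omega)) hFb
  have h12 := small_num A hA0
  have h13 : F b + 8 / 45 * (Real.log b - ls) ^ 2 = 45 / 32 * A ^ 2 := by
    rw [e5, hls]
    ring
  have h14 : Real.log b * F b = A * Real.log b ^ 2 - 8 / 45 * Real.log b ^ 3 := by
    rw [e5]; ring
  rw [← e6] at h12
  norm_num at h4 h10 h11 h12 h13 h14 hDb ⊢
  nlinarith

/-- the sum of the reciprocals of the primes in `(a, b]` -/
theorem recip_sum (a b : ℕ) (ha : 13002 ≤ a) (hab : a < b) :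
    ∑ p ∈ (Ioc a b).filter Nat.Prime, 1 / (p : ℝ) ≤
      Real.log (Real.log b) - Real.log (Real.log ((a : ℝ) + 1)) +
        (0.719 + 1 / a) / Real.log ((a : ℝ) + 1) := by
  have haR : (13002 : ℝ) ≤ a := by exact_mod_cast ha
  have hbR : (13002 : ℝ) < b := by
    have : (a : ℝ) < b := by exact_mod_cast hab
    linarith
  set F : ℕ → ℝ := fun n => 1 / Real.log n with hF
  have h1 := abel (fun k => if k.Prime then Real.log k / ((k : ℝ) - 1) else 0) F a b hab
  have h2 : ∑ n ∈ Ioc a b, (if n.Prime then Real.log n / ((n : ℝ) - 1) else 0) * F n =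
      ∑ p ∈ (Ioc a b).filter Nat.Prime, 1 / ((p : ℝ) - 1) := by
    rw [Finset.sum_filter]
    apply Finset.sum_congr rfl
    intro n _
    split_ifs with h
    · have h3 : Real.log n ≠ 0 := (Real.log_pos (by exact_mod_cast h.one_lt)).ne'
      have h4 := (pred_pos h).ne'
      rw [hF]; beta_reduce
      field_simp
    · ring
  have h0 : ∑ p ∈ (Ioc a b).filter Nat.Prime, 1 / (p : ℝ) ≤
      ∑ p ∈ (Ioc a b).filter Nat.Prime, 1 / ((p : ℝ) - 1) := by
    apply Finset.sum_le_sum
    intro p hp
    rw [mem_filter, mem_Ioc] at hp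
    have hp2 : (2 : ℝ) ≤ p := by exact_mod_cast hp.2.two_le
    exact one_div_le_one_div_of_le (by linarith) (by linarith)
  refine h0.trans ?_
  rw [← h2, h1, sum_prime_term a b hab.le]
  have hanti : ∀ n, a < n → 0 ≤ F n - F (n + 1) := by
    intro n hn
    have hnR : (1 : ℝ) < n := by
      have : 1 < n := by omega
      exact_mod_cast this
    have hl : 0 < Real.log n := Real.log_pos hnR
    have hll : Real.log n ≤ Real.log ((n : ℝ) + 1) := Real.log_le_log (by linarith) (by linarith)
    have := one_div_le_one_div_of_le hl hll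
    rw [hF]; push_cast; linarith
  have h4 : ∑ n ∈ Ioo a b, (∑ k ∈ Ioc a n, (if k.Prime then Real.log k / ((k : ℝ) - 1) else 0)) *
      (F n - F (n + 1)) ≤ ∑ n ∈ Ioo a b, (Real.log n * (1 / Real.log n -
        1 / Real.log ((n : ℝ) + 1)) + (-0.198 - Ls a) * (F n - F (n + 1))) := by
    apply Finset.sum_le_sum
    intro n hn
    rw [mem_Ioo] at hn
    rw [sum_prime_term a n hn.1.le]
    have e1 : F n - F (n + 1) = 1 / Real.log n - 1 / Real.log ((n : ℝ) + 1) := by
      rw [hF]; push_cast; ring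
    have e2 := hanti n hn.1
    have e3 := mul_le_mul_of_nonneg_right (Ls_upper_10000 n (by omega)) e2
    rw [← e1]
    linarith
  have h5 := loglog_sum a b (by omega) hab
  have h6 := abel_single F a b hab
  have h7 : F (a + 1) = 1 / Real.log ((a : ℝ) + 1) := by
    rw [hF]; push_cast; ring
  have h8 : F b = 1 / Real.log b := rfl
  rw [Finset.sum_add_distrib, ← Finset.mul_sum] at h4
  have h9 : ∑ n ∈ Ioo a b, (F n - F (n + 1)) = 1 / Real.log ((a : ℝ) + 1) - 1 / Real.log b := by
    rw [← h7, ← h8]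
    linarith
  rw [h9] at h4
  have hlb : 0 < Real.log b := Real.log_pos (by linarith)
  have hla : 0 < Real.log ((a : ℝ) + 1) := Real.log_pos (by linarith)
  have hlog := log_succ_le a (by omega)
  have e1 := Ls_upper_10000 b (by omega)
  have e2 := Ls_lo_13002 a ha
  have e3 : (Ls b - Ls a) * F b ≤ (Real.log b - 0.198 - Ls a) * (1 / Real.log b) := by
    rw [h8]
    apply mul_le_mul_of_nonneg_right _ (by positivity)
    linarith
  have e4 : (Real.log b - 0.198 - Ls a) * (1 / Real.log b) +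
      (-0.198 - Ls a) * (1 / Real.log ((a : ℝ) + 1) - 1 / Real.log b) =
      1 - (0.198 + Ls a) * (1 / Real.log ((a : ℝ) + 1)) := by
    field_simp
    ring
  have e5 : 1 - (0.198 + Ls a) * (1 / Real.log ((a : ℝ) + 1)) ≤
      (0.719 + 1 / a) / Real.log ((a : ℝ) + 1) := by
    rw [mul_one_div, sub_le_iff_le_add, ← add_div, le_div_iff₀ hla]
    norm_num at e2 hlog ⊢
    linarith
  linarith

end Pool.Agent.Lib.MP_bf4c7f
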