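import Mathlib

/-!
# The final numerical inequality
-/

set_option autoImplicit false

namespace Pool.Agent.Lib.MP_bf4c7f

/-- the main term, `r = log R` -/
noncomputable def DR (r : ℝ) : ℝ :=
  (4 / 45 * r ^ 3 + 0.55 * r ^ 2 + 0.5 * r - 0.3) -
      (0.802 * (45 / 32) * (4 / 15 * r + 0.75) ^ 2 + ((4 / 15 * r + 0.75) * (r - 2.0794) ^ 2 / 2 -
        8 / 135 * (r - 2.0794) ^ 3) - 3.176 * (4 / 15 * r + 0.75) + 0.908) - 11

lemma num_R (r : ℝ) (hr : 11.55 ≤ r) :
    (2 / 15 * r ^ 2 + 0.75 * r) ^ 2 * (4 / 15 * (0.118 * (r - 2.0794) + 0.7195) +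
      0.0788 * (0.24166 * (r - 2.0794) + 0.1671)) <
    4 / 15 * DR r * ((r - 2.0795) * (0.24166 * (r - 2.0795) + 0.1671)) := by
  obtain ⟨t, ht⟩ : ∃ t, t = r - 11.55 := ⟨_, rfl⟩
  have ht0 : 0 ≤ t := by rw [ht]; linarith
  have hrt : r = t + 11.55 := by rw [ht]; ring
  have key : 4 / 15 * DR r * ((r - 2.0795) * (0.24166 * (r - 2.0795) + 0.1671)) -
      (2 / 15 * r ^ 2 + 0.75 * r) ^ 2 * (4 / 15 * (0.118 * (r - 2.0794) + 0.7195) +
      0.0788 * (0.24166 * (r - 2.0794) + 0.1671)) =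
      316630469619198280992491047 / 50625000000000000000000000 +
      115575178234535710312951 / 6328125000000000000000 * t +
      24652800166243354751 / 6328125000000000000 * t ^ 2 +
      3403852954347869 / 12656250000000000 * t ^ 3 +
      1932646234123 / 316406250000000 * t ^ 4 +
      3591841 / 63281250000 * t ^ 5 := by
    rw [hrt]
    unfold DR
    ring
  have hpos : 0 < 316630469619198280992491047 / 50625000000000000000000000 +
      115575178234535710312951 / 6328125000000000000000 * t +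
      24652800166243354751 / 6328125000000000000 * t ^ 2 +
      3403852954347869 / 12656250000000000 * t ^ 3 +
      1932646234123 / 316406250000000 * t ^ 4 +
      3591841 / 63281250000 * t ^ 5 := by
    positivity
  linarith

/-- the final inequality -/
lemma fin_R (x X L l r D G T V : ℝ) (hX : 0 < X) (hxX : x ≤ 1.0001 * X) (hx : 0 ≤ x) (hl : 8 ≤ l)
    (hl1 : l ≤ r - 2.0794) (hl2 : r - 2.0795 ≤ l) (hr : 11.55 ≤ r) (hL : 3 * l ≤ L)
    (hG : 0.24166 * l + 0.1671 ≤ G) (hT0 : 0 ≤ T) (hT : T * l ≤ 0.118 * l + 0.7195) (hV0 : 0 ≤ V)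
    (hV : V ≤ (2 / 15 * r ^ 2 + 0.75 * r) ^ 2) (hD : DR r ≤ D) :
    V * (4 / 15 * X * (T / G) + 0.2357 * (x / L)) < 4 / 15 * X * D := by
  have hl0 : 0 < l := by linarith
  have hg0 : 0 < 0.24166 * l + 0.1671 := by positivity
  have hG0 : 0 < G := lt_of_lt_of_le hg0 hG
  set W : ℝ := 4 / 15 * (0.118 * (r - 2.0794) + 0.7195) +
      0.0788 * (0.24166 * (r - 2.0794) + 0.1671) with hW
  set M : ℝ := (r - 2.0795) * (0.24166 * (r - 2.0795) + 0.1671) with hM
  have hr8 : 0 < r - 2.0795 := by norm_num at hr ⊢; linarith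
  have hM0 : 0 < M := by rw [hM]; positivity
  have h1 : T / G ≤ (0.118 * l + 0.7195) / (l * (0.24166 * l + 0.1671)) := by
    have e1 : T ≤ (0.118 * l + 0.7195) / l := by rw [le_div_iff₀ hl0]; exact hT
    calc T / G ≤ T / (0.24166 * l + 0.1671) := div_le_div_of_nonneg_left hT0 hg0 hG
      _ ≤ ((0.118 * l + 0.7195) / l) / (0.24166 * l + 0.1671) :=
          div_le_div_of_nonneg_right e1 hg0.le
      _ = _ := by rw [div_div]
  have h2 : 0.2357 * (x / L) ≤ 0.0788 * X / l := by
    have e1 : x / L ≤ x / (3 * l) := div_le_div_of_nonneg_left hx (by positivity) hL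
    have e2 : 0.2357 * (x / (3 * l)) ≤ 0.0788 * X / l := by
      rw [mul_div_assoc', div_le_div_iff₀ (by positivity) hl0]
      have : 0.2357 * x ≤ 0.0788 * X * 3 := by
        norm_num at hxX ⊢
        linarith
      have := mul_le_mul_of_nonneg_right this hl0.le
      linarith
    linarith
  have h3 : 4 / 15 * X * (T / G) + 0.2357 * (x / L) ≤ X * (W / M) := by
    have e1 : 4 / 15 * X * (T / G) ≤
        4 / 15 * X * ((0.118 * l + 0.7195) / (l * (0.24166 * l + 0.1671))) :=
      mul_le_mul_of_nonneg_left h1 (by positivity)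
    have e2 : 4 / 15 * X * ((0.118 * l + 0.7195) / (l * (0.24166 * l + 0.1671))) +
        0.0788 * X / l = X * ((4 / 15 * (0.118 * l + 0.7195) +
          0.0788 * (0.24166 * l + 0.1671)) / (l * (0.24166 * l + 0.1671))) := by
      field_simp
    have e3 : (4 / 15 * (0.118 * l + 0.7195) +
          0.0788 * (0.24166 * l + 0.1671)) / (l * (0.24166 * l + 0.1671)) ≤ W / M := by
      apply div_le_div₀ _ _ hM0 _
      · rw [hW]
        have : 0 < r - 2.0794 := by linarith
        positivity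
      · rw [hW]
        norm_num at hl1 ⊢
        linarith
      · rw [hM]
        apply mul_le_mul hl2 _ _ hl0.le
        · norm_num at hl2 ⊢
          linarith
        · positivity
    have e4 := mul_le_mul_of_nonneg_left e3 hX.le
    linarith
  have h4 := num_R r hr
  rw [← hW, ← hM] at h4
  have hW0 : 0 ≤ W := by
    rw [hW]
    have : 0 < r - 2.0794 := by linarith
    positivity
  have h5 : V * (4 / 15 * X * (T / G) + 0.2357 * (x / L)) ≤ V * (X * (W / M)) :=
    mul_le_mul_of_nonneg_left h3 hV0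
  have h6 : V * (X * (W / M)) ≤ (2 / 15 * r ^ 2 + 0.75 * r) ^ 2 * (X * (W / M)) := by
    apply mul_le_mul_of_nonneg_right hV
    positivity
  have h7 : (2 / 15 * r ^ 2 + 0.75 * r) ^ 2 * (X * (W / M)) < 4 / 15 * X * DR r := by
    have e1 : (2 / 15 * r ^ 2 + 0.75 * r) ^ 2 * (X * (W / M)) =
        X * ((2 / 15 * r ^ 2 + 0.75 * r) ^ 2 * W / M) := by ring
    rw [e1]
    have e2 : (2 / 15 * r ^ 2 + 0.75 * r) ^ 2 * W / M < 4 / 15 * DR r := by
      rw [div_lt_iff₀ hM0]
      exact h4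
    calc X * ((2 / 15 * r ^ 2 + 0.75 * r) ^ 2 * W / M) < X * (4 / 15 * DR r) :=
          mul_lt_mul_of_pos_left e2 hX
      _ = _ := by ring
  have h8 : 4 / 15 * X * DR r ≤ 4 / 15 * X * D := mul_le_mul_of_nonneg_left hD (by positivity)
  linarith

end Pool.Agent.Lib.MP_bf4c7f
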