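import Mathlib
import Pool.Agent.Lib.MP_bf4c7f_rough.Crit
import Pool.Agent.Lib.MP_bf4c7f_rough.Mer
import Pool.Agent.Lib.MP_bf4c7f_rough.NumR

/-!
# The range `x ≥ 2 ^ 41`: estimates
-/

set_option autoImplicit false

namespace Pool.Agent.Lib.MP_bf4c7f

open Finset

lemma exists_root3 (x : ℕ) : ∃ m, m ^ 3 ≤ x ∧ x < (m + 1) ^ 3 := by
  have h : ∃ r, x < (r + 1) ^ 3 := ⟨x, by
    have : x + 1 ≤ (x + 1) ^ 3 := Nat.le_self_pow (by norm_num) _
    omega⟩
  classical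
  refine ⟨Nat.find h, ?_, Nat.find_spec h⟩
  rcases Nat.eq_zero_or_pos (Nat.find h) with h0 | h0
  · rw [h0]; simp
  · have h1 := Nat.find_min h (m := Nat.find h - 1) (by omega)
    rw [Nat.sub_add_cancel h0, not_lt] at h1
    exact h1

lemma log_eight_k {k : ℕ} (hk : 1 ≤ k) : Real.log ((k * 8 : ℕ) : ℝ) = Real.log k + 3 * Real.log 2 := by
  have hkR : (0 : ℝ) < k := by exact_mod_cast hk
  push_cast
  rw [Real.log_mul hkR.ne' (by norm_num), show (8 : ℝ) = 2 ^ 3 by norm_num, Real.log_pow]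
  norm_num

lemma log_k_ge {k : ℕ} (hk : 13003 ≤ k) : 9.4728 ≤ Real.log k := by
  have hkR : (13003 : ℝ) ≤ k := by exact_mod_cast hk
  exact lg13003.1.trans (Real.log_le_log (by norm_num) hkR)

/-- the sum of the absolute values of the weights -/
lemma lam_totalR {k : ℕ} (hk : 13003 ≤ k) :
    ∑ d ∈ Icc 1 (k * 8), |lamY (YR (k * 8)) (k * 8) d| ≤ 2.4262 * (k : ℝ) := by
  have hkR : (13003 : ℝ) ≤ k := by exact_mod_cast hk
  have h1 := sum_abs_lamY (k * 8) (by omega)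
  have hc := c0_le (k * 8) (by omega)
  have hc0 : 0 ≤ c0 (k * 8) := Finset.sum_nonneg (fun _ _ => by positivity)
  have hG := GG_up (k * 8) (by omega)
  have hG0 := GG_nonneg (k * 8)
  have hc2 : c0 (k * 8) ^ 2 ≤ 1.1315 := by
    calc c0 (k * 8) ^ 2 ≤ 1.0637 ^ 2 := pow_le_pow_left₀ hc0 hc 2
      _ ≤ 1.1315 := by norm_num
  -- the cube root
  obtain ⟨c, hc1, hc3⟩ : ∃ c : ℝ, 1 ≤ c ∧ c ^ 3 = (k : ℝ) / 13003 := by
    refine ⟨((k : ℝ) / 13003) ^ ((1 : ℝ) / 3), ?_, ?_⟩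
    · apply Real.one_le_rpow _ (by norm_num)
      rw [le_div_iff₀ (by norm_num)]
      linarith
    · rw [← Real.rpow_natCast, ← Real.rpow_mul (by positivity)]
      norm_num
  have hcp : 0 < c := by linarith
  have hlog : Real.log ((k * 8 : ℕ) : ℝ) ≤ 11.5527 * c := by
    have e1 : ((k * 8 : ℕ) : ℝ) = 13003 * (2 ^ 3 * c ^ 3) := by
      rw [hc3]; push_cast; ring
    rw [e1, Real.log_mul (by norm_num) (by positivity), Real.log_mul (by norm_num) (by positivity),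
      Real.log_pow, Real.log_pow]
    have e2 : Real.log c ≤ c - 1 := Real.log_le_sub_one_of_pos hcp
    have e3 := Real.log_two_lt_d9
    have e4 := lg13003.2
    push_cast
    norm_num at e3 e4 ⊢
    linarith
  have hlog0 : 0 ≤ Real.log ((k * 8 : ℕ) : ℝ) := by
    apply Real.log_nonneg
    push_cast
    linarith
  have hG2 : GG (k * 8) ≤ 3.8308 * c := by
    norm_num at hlog hG ⊢
    linarith
  have h2 : 14 / 15 * Real.log ((k * 8 : ℕ) : ℝ) * GG (k * 8) ^ 2 ≤ 0.0123 * k := by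
    have e1 : GG (k * 8) ^ 2 ≤ (3.8308 * c) ^ 2 := pow_le_pow_left₀ hG0 hG2 2
    calc 14 / 15 * Real.log ((k * 8 : ℕ) : ℝ) * GG (k * 8) ^ 2 ≤
          14 / 15 * (11.5527 * c) * (3.8308 * c) ^ 2 := by
          apply mul_le_mul _ e1 (by positivity) (by positivity)
          linarith
      _ = 14 / 15 * 11.5527 * 3.8308 ^ 2 * c ^ 3 := by ring
      _ = 14 / 15 * 11.5527 * 3.8308 ^ 2 / 13003 * k := by rw [hc3]; ring
      _ ≤ 0.0123 * k := by
          apply mul_le_mul_of_nonneg_right _ (by positivity)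
          norm_num
  have h3 : 4 / 15 * c0 (k * 8) ^ 2 * ((k * 8 : ℕ) : ℝ) ≤ 2.4139 * k := by
    push_cast
    have : (0 : ℝ) ≤ k := by positivity
    nlinarith
  norm_num at h1 h2 h3 ⊢
  linarith

lemma card_P7_R {k : ℕ} (hk : 13003 ≤ k) :
    1 + ((P7 (k - 1)).card : ℝ) ≤ (4 * (k : ℝ) + 10) / 15 := by
  have h1 : insert 1 (P7 (k - 1)) ⊆ (Icc 1 (k - 1)).filter (fun n => Nat.Coprime n 30) := by
    intro p hp
    rw [mem_insert, mem_P7] at hp
    rw [mem_filter, mem_Icc]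
    rcases hp with rfl | ⟨h1, h2, h3⟩
    · exact ⟨⟨le_rfl, by omega⟩, by norm_num⟩
    · exact ⟨⟨by omega, h3⟩, prime_coprime_30 h1 h2⟩
  have h2 : (insert 1 (P7 (k - 1))).card = (P7 (k - 1)).card + 1 := by
    apply Finset.card_insert_of_notMem
    rw [mem_P7]
    rintro ⟨h, _⟩
    exact Nat.not_prime_one h
  have h3 := Finset.card_le_card h1
  rw [h2] at h3
  have h4 : (15 : ℝ) * (C30 (k - 1) : ℝ) ≤ 4 * ((k - 1 : ℕ) : ℝ) + 14 := by
    exact_mod_cast (C30_bounds (k - 1)).1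
  rw [Nat.cast_sub (by omega)] at h4
  push_cast at h4
  have h5 : ((P7 (k - 1)).card : ℝ) + 1 ≤ (C30 (k - 1) : ℝ) := by
    unfold C30
    exact_mod_cast h3
  linarith

lemma card_primes_R {k y : ℕ} (hk : 7 ≤ k) :
    (((Icc k y).filter Nat.Prime).card : ℝ) ≤ (4 * (y : ℝ) + 14) / 15 := by
  have h1 : (Icc k y).filter Nat.Prime ⊆ (Icc 1 y).filter (fun n => Nat.Coprime n 30) := by
    intro p hp
    rw [mem_filter, mem_Icc] at hp ⊢
    exact ⟨⟨by omega, hp.1.2⟩, prime_coprime_30 hp.2 (by omega)⟩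
  have h3 := Finset.card_le_card h1
  have h4 : (15 : ℝ) * (C30 y : ℝ) ≤ 4 * (y : ℝ) + 14 := by
    exact_mod_cast (C30_bounds y).1
  have h5 : ((((Icc k y).filter Nat.Prime).card : ℕ) : ℝ) ≤ (C30 y : ℝ) := by
    unfold C30
    exact_mod_cast h3
  linarith

/-- the condition on the weights at large primes -/
lemma cond_LR {k : ℕ} (hk : 13003 ≤ k) :
    8 * ((k : ℝ) / ((k : ℝ) - 1) * L1 8) ≤ 2 * L1 (k * 8) := by
  have hkR : (13003 : ℝ) ≤ k := by exact_mod_cast hk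
  have hl := log_k_ge hk
  have hU := L1_upper (fun R h => GG_up R h) 8 (by norm_num)
  have hLw := L1_lower (k * 8) (by omega)
  rw [log_eight_k (by omega)] at hLw
  have e8 : Real.log ((8 : ℕ) : ℝ) = 3 * Real.log 2 := by
    push_cast
    rw [show (8 : ℝ) = 2 ^ 3 by norm_num, Real.log_pow]
    norm_num
  rw [e8] at hU
  have a2 := Real.log_two_gt_d9
  have b2 := Real.log_two_lt_d9
  have hz : (k : ℝ) / ((k : ℝ) - 1) ≤ 1.0001 := by
    rw [div_le_iff₀ (by linarith)]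
    norm_num
    linarith
  have hL0 := L1_nonneg 8
  have h1 : (k : ℝ) / ((k : ℝ) - 1) * L1 8 ≤ 1.0001 * L1 8 :=
    mul_le_mul_of_nonneg_right hz hL0
  have h2 : L1 8 ≤ 2.137 := by
    refine hU.trans ?_
    norm_num at b2 a2 ⊢
    nlinarith
  set t := Real.log k + 3 * Real.log 2 with ht
  have ht1 : 10.39 ≤ t := by
    rw [ht]
    norm_num at hl a2 ⊢
    linarith
  have h3 : 20 ≤ 2 / 15 * t ^ 2 + 0.55 * t + 0.25 := by
    norm_num at ht1 ⊢
    nlinarith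
  norm_num at h1 h2 h3 hLw ⊢
  linarith

/-- the sum over the small primes -/
lemma small_sumR {k : ℕ} (hk : 13003 ≤ k) :
    ∑ p ∈ P7 (k - 1), Np (k * 8) p / p ≤
      0.802 * (45 / 32) * (4 / 15 * Real.log ((k * 8 : ℕ) : ℝ) + 0.75) ^ 2 +
        ((4 / 15 * Real.log ((k * 8 : ℕ) : ℝ) + 0.75) * Real.log k ^ 2 / 2 -
          8 / 135 * Real.log k ^ 3) - 3.176 * (4 / 15 * Real.log ((k * 8 : ℕ) : ℝ) + 0.75) +
          0.908 := by
  have hkR : (13003 : ℝ) ≤ k := by exact_mod_cast hk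
  have hl := log_k_ge hk
  obtain ⟨r, hr⟩ : ∃ r, r = Real.log ((k * 8 : ℕ) : ℝ) := ⟨_, rfl⟩
  have hrl : r = Real.log k + 3 * Real.log 2 := by rw [hr, log_eight_k (by omega)]
  rw [← hr]
  have a2 := Real.log_two_gt_d9
  obtain ⟨A, hA⟩ : ∃ A, A = 4 / 15 * r + 0.75 := ⟨_, rfl⟩
  rw [← hA]
  obtain ⟨l, hldef⟩ : ∃ l, l = Real.log k := ⟨_, rfl⟩
  rw [← hldef] at hl hrl ⊢
  have hA1 : 3.4 ≤ A := by
    rw [hA]; norm_num at hl a2 ⊢; linarith
  have hA0 : 0 ≤ A := by norm_num at hA1; linarith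
  have hAl : 4 / 15 * l + 1.3 ≤ A := by
    rw [hA]; norm_num at a2 ⊢; linarith
  obtain ⟨b, hb⟩ : ∃ b, b = k - 1 := ⟨_, rfl⟩
  rw [← hb]
  have hbR : (13002 : ℝ) ≤ b := by
    have : 13002 ≤ b := by omega
    exact_mod_cast this
  obtain ⟨m, hm⟩ : ∃ m, m = Real.log b := ⟨_, rfl⟩
  have hm0 : 0 ≤ m := by rw [hm]; exact Real.log_nonneg (by linarith)
  have hml : m ≤ l := by
    rw [hm, hldef]
    apply Real.log_le_log (by linarith)
    have : b ≤ k := by omega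
    exact_mod_cast this
  have h1 : ∑ p ∈ P7 b, Np (k * 8) p / p ≤ ∑ p ∈ P7 b, Real.log p / ((p : ℝ) - 1) *
      (A * Real.log p - 8 / 45 * Real.log p ^ 2) := by
    apply Finset.sum_le_sum
    intro p hp
    rw [mem_P7] at hp
    have hpR : (7 : ℝ) ≤ p := by exact_mod_cast hp.2.1
    have e1 := Np_upper GG_up (k * 8) p (by omega) (by omega)
    rw [← hr, ← hA] at e1
    have e2 := Np_nonneg (k * 8) p
    have e3 : Np (k * 8) p / p ≤ Np (k * 8) p / ((p : ℝ) - 1) := by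
      apply div_le_div_of_nonneg_left e2 (by linarith) (by linarith)
    refine e3.trans ?_
    have e4 : Real.log p / ((p : ℝ) - 1) * (A * Real.log p - 8 / 45 * Real.log p ^ 2) =
        (A * Real.log p ^ 2 - 8 / 45 * Real.log p ^ 3) / ((p : ℝ) - 1) := by
      ring
    rw [e4]
    exact div_le_div_of_nonneg_right e1 (by linarith)
  refine h1.trans ?_
  have h2 := small_abel2 A b (by omega) hA1 (by rw [← hm]; linarith)
  rw [← hm] at h2
  refine h2.trans ?_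
  have h3 : A * m ^ 2 / 2 - 8 / 135 * m ^ 3 ≤ A * l ^ 2 / 2 - 8 / 135 * l ^ 3 := by
    have e1 : A * l ^ 2 / 2 - 8 / 135 * l ^ 3 - (A * m ^ 2 / 2 - 8 / 135 * m ^ 3) =
        (l - m) * ((l + m) * (A / 2 - 8 / 135 * (l + m)) + 8 / 135 * (l * m)) := by ring
    have e2 : 0 ≤ (l - m) * ((l + m) * (A / 2 - 8 / 135 * (l + m)) + 8 / 135 * (l * m)) := by
      apply mul_nonneg (by linarith)
      apply add_nonneg
      · apply mul_nonneg (by linarith)
        linarith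
      · have : 0 ≤ l := by linarith
        positivity
    linarith
  linarith

end Pool.Agent.Lib.MP_bf4c7f
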