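import Mathlib
import Pool.Agent.Lib.MP_bf4c7f_rough.LargeA

/-!
# The range `x ≥ 2 ^ 41`
-/

set_option autoImplicit false

namespace Pool.Agent.Lib.MP_bf4c7f

open Finset

/-- **The range `x ≥ 2 ^ 41`.** -/
theorem regL (x a y : ℕ) (hx : 2 ^ 41 ≤ x) (ha : a ≤ x ^ 2) (hy1 : y ^ 8 ≤ x ^ 3)
    (hy2 : x ^ 3 < (y + 1) ^ 8) :
    (x : ℝ) / (5 * Real.log x) ≤ ((RG a (a + (x - 1)) y).card : ℝ) := by
  obtain ⟨k, hk1, hk2⟩ := exists_root3 x
  have hk : 13003 ≤ k := by
    by_contra hlt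
    have h1 : (k + 1) ^ 3 ≤ 13003 ^ 3 := Nat.pow_le_pow_left (by omega) 3
    norm_num at hx h1
    omega
  have hkR : (13003 : ℝ) ≤ k := by exact_mod_cast hk
  have hk0 : (0 : ℝ) < k := by linarith
  have hl := log_k_ge hk
  set l := Real.log k with hldef
  have hl0 : 0 < l := lt_of_lt_of_le (by norm_num) hl
  have a2 := Real.log_two_gt_d9
  have b2 := Real.log_two_lt_d9
  have hxR : (2 : ℝ) ^ 41 ≤ x := by exact_mod_cast hx
  have hx0 : (0 : ℝ) < x := lt_of_lt_of_le (by positivity) hxR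
  have hxk : (k : ℝ) ^ 3 ≤ x := by exact_mod_cast hk1
  have hxk2 : (x : ℝ) ≤ ((k : ℝ) + 1) ^ 3 := by
    have : (x : ℝ) < (((k + 1) ^ 3 : ℕ) : ℝ) := by exact_mod_cast hk2
    push_cast at this
    exact this.le
  set L := Real.log x with hL
  have hL1 : 3 * l ≤ L := by
    have h1 := Real.log_le_log (by positivity) hxk
    rw [Real.log_pow] at h1
    push_cast at h1
    exact h1
  have hL2 : L ≤ 3 * l + 3 / k := by
    have h1 := Real.log_le_log hx0 hxk2
    rw [Real.log_pow] at h1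
    have h2 := log_succ_le k (by omega)
    have h3 : (3 : ℝ) / k = 3 * (1 / k) := by ring
    rw [h3]
    push_cast at h1
    linarith
  have hL36 : 28.418 ≤ L := by norm_num at hl ⊢; linarith
  have hLpos : 0 < L := lt_of_lt_of_le (by norm_num) hL36
  -- the number `y`
  have hky : k ≤ y := by
    by_contra hlt
    have h1 : (y + 1) ^ 8 ≤ k ^ 8 := Nat.pow_le_pow_left (by omega) 8
    have h2 : k ^ 8 ≤ k ^ 9 := Nat.pow_le_pow_right (by omega) (by norm_num)
    have h3 : k ^ 9 ≤ x ^ 3 := by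
      calc k ^ 9 = (k ^ 3) ^ 3 := by ring
        _ ≤ x ^ 3 := Nat.pow_le_pow_left hk1 3
    omega
  have hyR : (13003 : ℝ) ≤ y := by
    have : 13003 ≤ y := hk.trans hky
    exact_mod_cast this
  have hy0 : (0 : ℝ) < y := by linarith
  have hlogy : Real.log y ≤ 3 / 8 * L := by
    have h1 : (y : ℝ) ^ 8 ≤ (x : ℝ) ^ 3 := by exact_mod_cast hy1
    have h2 := Real.log_le_log (by positivity) h1
    rw [Real.log_pow, Real.log_pow] at h2
    push_cast at h2
    linarith
  have hlogy0 : 0 < Real.log y := Real.log_pos (by linarith)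
  -- the level `Rc`
  set q : ℝ := x / (L * y) with hq
  have hq0 : 0 < q := by rw [hq]; positivity
  have hlogL : Real.log L ≤ 2.8713 + L / 48 := by
    have h1 : Real.log L = Real.log 48 + Real.log (L / 48) := by
      rw [← Real.log_mul (by norm_num) (by positivity)]
      congr 1; ring
    have h2 : Real.log (L / 48) ≤ L / 48 - 1 := Real.log_le_sub_one_of_pos (by positivity)
    have h3 : Real.log 48 = 4 * Real.log 2 + Real.log 3 := by
      rw [show (48 : ℝ) = 2 ^ 4 * 3 by norm_num, Real.log_mul (by norm_num) (by norm_num),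
        Real.log_pow]
      norm_num
    have h4 := lg3.2
    rw [h1, h3]
    norm_num at h4 b2 ⊢
    linarith
  have hlogq : Real.log q = L - Real.log L - Real.log y := by
    rw [hq, Real.log_div hx0.ne' (by positivity), Real.log_mul hLpos.ne' hy0.ne']
    ring
  have hq400 : (1200 : ℝ) ^ 2 ≤ q := by
    have h1 : Real.log ((1200 : ℝ) ^ 2) ≤ Real.log q := by
      rw [hlogq, Real.log_pow]
      have h2 : Real.log 1200 = 4 * Real.log 2 + Real.log 3 + 2 * Real.log 5 := by
        rw [show (1200 : ℝ) = 2 ^ 4 * 3 * 5 ^ 2 by norm_num,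
          Real.log_mul (by norm_num) (by norm_num), Real.log_mul (by norm_num) (by norm_num),
          Real.log_pow, Real.log_pow]
        norm_num
      have h3 := lg5.2
      have h3' := lg3.2
      have h4 : Real.log L ≤ 3.3324 + (L / 28 - 1) := by
        have h5 : Real.log L = Real.log 28 + Real.log (L / 28) := by
          rw [← Real.log_mul (by norm_num) (by positivity)]
          congr 1; ring
        have h6 : Real.log (L / 28) ≤ L / 28 - 1 := Real.log_le_sub_one_of_pos (by positivity)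
        have h7 : Real.log 28 = 2 * Real.log 2 + Real.log 7 := by
          rw [show (28 : ℝ) = 2 ^ 2 * 7 by norm_num, Real.log_mul (by norm_num) (by norm_num),
            Real.log_pow]
          norm_num
        have h8 := lg7.2
        rw [h5, h7]
        norm_num at h8 b2 ⊢
        linarith
      rw [h2]
      norm_num at h3 h3' h4 b2 hL36 ⊢
      linarith
    exact (Real.log_le_log_iff (by norm_num) hq0).1 h1
  set Rc : ℕ := ⌊√q⌋₊ with hRc
  have hRc400 : 1200 ≤ Rc := by
    rw [hRc]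
    apply Nat.le_floor
    apply Real.le_sqrt_of_sq_le
    push_cast
    exact hq400
  have hRcR : (1200 : ℝ) ≤ Rc := by exact_mod_cast hRc400
  have hRc2 : (Rc : ℝ) ^ 2 ≤ q := by
    have h1 : (Rc : ℝ) ≤ √q := Nat.floor_le (Real.sqrt_nonneg _)
    calc (Rc : ℝ) ^ 2 ≤ √q ^ 2 := pow_le_pow_left₀ (by positivity) h1 2
      _ = q := Real.sq_sqrt hq0.le
  have hRck : Rc < k := by
    have h1 : q < (k : ℝ) ^ 2 := by
      rw [hq, div_lt_iff₀ (by positivity)]
      have h2 : (24 : ℝ) * k ≤ L * y := by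
        apply mul_le_mul _ _ hk0.le hLpos.le
        · norm_num at hL36; linarith
        · exact_mod_cast hky
      have h3 : ((k : ℝ) + 1) ^ 3 < (k : ℝ) ^ 2 * (24 * k) := by
        have h4 : (k : ℝ) + 1 ≤ 2 * k := by linarith
        calc ((k : ℝ) + 1) ^ 3 ≤ (2 * k) ^ 3 := pow_le_pow_left₀ (by positivity) h4 3
          _ = 8 * (k : ℝ) ^ 3 := by ring
          _ < 24 * (k : ℝ) ^ 3 := by
              have : (0 : ℝ) < (k : ℝ) ^ 3 := by positivity
              linarith
          _ = _ := by ring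
      have h5 : (k : ℝ) ^ 2 * (24 * k) ≤ (k : ℝ) ^ 2 * (L * y) :=
        mul_le_mul_of_nonneg_left h2 (by positivity)
      linarith
    have h2 : (Rc : ℝ) ^ 2 < (k : ℝ) ^ 2 := lt_of_le_of_lt hRc2 h1
    have h3 : (Rc : ℝ) < k := lt_of_pow_lt_pow_left₀ 2 hk0.le h2
    exact_mod_cast h3
  have hGG : 0.24166 * l + 0.1671 ≤ GG Rc := by
    have h1 := GG_low Rc (by omega)
    have h2 : 1 / 2 * Real.log q ≤ Real.log ((Rc : ℝ) + 1) := by
      have h3 : √q ≤ (Rc : ℝ) + 1 := (Nat.lt_floor_add_one _).le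
      have h4 := Real.log_le_log (Real.sqrt_pos.2 hq0) h3
      rw [Real.log_sqrt hq0.le] at h4
      linarith
    rw [hlogq] at h2
    norm_num at hlogL h1 ⊢
    linarith
  -- the count
  set X : ℝ := (x : ℝ) - 1 with hX
  have hx36 : (2199023255552 : ℝ) ≤ x := by
    refine le_trans ?_ hxR
    norm_num
  have hX0 : 0 < X := by rw [hX]; linarith
  have hxX : (x : ℝ) ≤ 1.0001 * X := by rw [hX]; norm_num; linarith
  have hcast : ((a + (x - 1) : ℕ) : ℝ) - a = X := by
    have hx1 : 1 ≤ x := le_trans (by norm_num) hx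
    rw [Nat.cast_add, Nat.cast_sub hx1, hX]
    push_cast; ring
  have hN : ∀ n ∈ Ioc a (a + (x - 1)), n < k ^ 9 := by
    intro n hn
    rw [mem_Ioc] at hn
    have h1 : x < 2 * k ^ 3 := by
      refine lt_of_lt_of_le hk2 ?_
      have h2 : ((k : ℝ) + 1) ^ 3 ≤ 2 * (k : ℝ) ^ 3 := by
        have h4 : (k : ℝ) + 1 ≤ 1.001 * k := by linarith
        calc ((k : ℝ) + 1) ^ 3 ≤ (1.001 * k) ^ 3 := pow_le_pow_left₀ (by positivity) h4 3
          _ = 1.001 ^ 3 * (k : ℝ) ^ 3 := by ring
          _ ≤ 2 * (k : ℝ) ^ 3 := by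
              apply mul_le_mul_of_nonneg_right _ (by positivity)
              norm_num
      exact_mod_cast h2
    have h3 : n < x ^ 2 + x := by omega
    have h4 : x ^ 2 + x ≤ 2 * k ^ 3 * (2 * k ^ 3) := by
      calc x ^ 2 + x = x * (x + 1) := by ring
        _ ≤ 2 * k ^ 3 * (2 * k ^ 3) := Nat.mul_le_mul h1.le h1
    have h5 : 2 * k ^ 3 * (2 * k ^ 3) = 4 * 1 * k ^ 6 := by ring
    have h6 : 4 * 1 * k ^ 6 ≤ k ^ 3 * k ^ 6 := by
      apply Nat.mul_le_mul_right
      have : 13003 ^ 3 ≤ k ^ 3 := Nat.pow_le_pow_left hk 3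
      omega
    have h7 : k ^ 3 * k ^ 6 = k ^ 9 := by ring
    omega
  have hcrit := critR a (a + (x - 1)) k y 8 Rc (by omega) hN (by omega) (by norm_num) (by omega)
    (cond_LR hk) (by omega) hRck
  rw [hcast] at hcrit
  set P := ∑ p ∈ P7 (k - 1), Np (k * 8) p / p with hP
  set Λ := ∑ d ∈ Icc 1 (k * 8), |lamY (YR (k * 8)) (k * 8) d| with hΛ
  set T := ∑ p ∈ (Ioc (k - 1) y).filter Nat.Prime, 1 / (p : ℝ) with hT
  set V := L1 (k * 8) ^ 2 with hV
  set e := (4 * (Rc : ℝ) + 14) / 15 with he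
  have hset : (Icc k y).filter Nat.Prime = (Ioc (k - 1) y).filter Nat.Prime := by
    congr 1
    ext m
    simp only [mem_Icc, mem_Ioc]
    omega
  have s1 : ∑ p ∈ P7 (k - 1), (4 / 15 * X * (Np (k * 8) p / p) + 28 / 15 * Λ ^ 2) =
      4 / 15 * X * P + 28 / 15 * Λ ^ 2 * ((P7 (k - 1)).card : ℝ) := by
    rw [Finset.sum_add_distrib, ← Finset.mul_sum, Finset.sum_const, nsmul_eq_mul]
    ring
  have s2 : ∑ p ∈ (Icc k y).filter Nat.Prime, (4 / 15 * X / (p * GG Rc) + 28 / 15 * e ^ 2) =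
      4 / 15 * X * (T / GG Rc) + 28 / 15 * e ^ 2 * (((Icc k y).filter Nat.Prime).card : ℝ) := by
    rw [Finset.sum_add_distrib, Finset.sum_const, nsmul_eq_mul, hset, hT, Finset.sum_div,
      Finset.mul_sum]
    congr 1
    · apply Finset.sum_congr rfl
      intro p _
      ring
    · ring
  rw [s1, s2] at hcrit
  have hV0 : 0 ≤ V := sq_nonneg _
  -- (a)
  have kcard := card_P7_R hk
  have kLam := lam_totalR hk
  rw [← hΛ] at kLam
  have kLam0 : 0 ≤ Λ := Finset.sum_nonneg (fun _ _ => abs_nonneg _)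
  have hk3 : (k : ℝ) ^ 3 ≤ 1.0001 * X := hxk.trans hxX
  have ka : 28 / 15 * Λ ^ 2 * (1 + ((P7 (k - 1)).card : ℝ)) ≤ 4 / 15 * X * 11 := by
    have g1 : Λ ^ 2 ≤ (2.4262 * (k : ℝ)) ^ 2 := pow_le_pow_left₀ kLam0 kLam 2
    have g2 : 28 / 15 * Λ ^ 2 * (1 + ((P7 (k - 1)).card : ℝ)) ≤
        28 / 15 * (2.4262 * (k : ℝ)) ^ 2 * ((4 * (k : ℝ) + 10) / 15) := by
      apply mul_le_mul _ kcard (by positivity) (by positivity)
      linarith
    have g3 : 28 / 15 * (2.4262 * (k : ℝ)) ^ 2 * ((4 * (k : ℝ) + 10) / 15) ≤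
        28 / 15 * 2.4262 ^ 2 / 15 * 4.0008 * (k : ℝ) ^ 3 := by
      have h1 : (4 * (k : ℝ) + 10) / 15 ≤ 4.0008 * k / 15 := by
        apply div_le_div_of_nonneg_right _ (by norm_num)
        norm_num
        linarith
      have h2 := mul_le_mul_of_nonneg_left h1
        (by positivity : (0 : ℝ) ≤ 28 / 15 * (2.4262 * (k : ℝ)) ^ 2)
      refine h2.trans (le_of_eq ?_)
      ring
    have g4 : 28 / 15 * 2.4262 ^ 2 / 15 * 4.0008 * (k : ℝ) ^ 3 ≤
        28 / 15 * 2.4262 ^ 2 / 15 * 4.0008 * (1.0001 * X) :=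
      mul_le_mul_of_nonneg_left hk3 (by norm_num)
    have g5 : 28 / 15 * 2.4262 ^ 2 / 15 * 4.0008 * (1.0001 * X) =
        (28 / 15 * 2.4262 ^ 2 / 15 * 4.0008 * 1.0001) * X := by ring
    have g6 : (28 / 15 * 2.4262 ^ 2 / 15 * 4.0008 * 1.0001) * X ≤ (4 / 15 * 11) * X := by
      apply mul_le_mul_of_nonneg_right _ hX0.le
      norm_num
    linarith
  -- (b)
  have kb : 28 / 15 * e ^ 2 * (((Icc k y).filter Nat.Prime).card : ℝ) ≤ 0.0357 * (x / L) := by
    have h1 := card_primes_R (k := k) (y := y) (by omega)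
    have h2 : e ≤ 4.0118 / 15 * Rc := by
      rw [he]
      norm_num
      linarith
    have he0 : 0 ≤ e := by rw [he]; positivity
    have h3 : e ^ 2 ≤ (4.0118 / 15) ^ 2 * q := by
      calc e ^ 2 ≤ (4.0118 / 15 * Rc) ^ 2 := pow_le_pow_left₀ he0 h2 2
        _ = (4.0118 / 15) ^ 2 * (Rc : ℝ) ^ 2 := by ring
        _ ≤ (4.0118 / 15) ^ 2 * q := mul_le_mul_of_nonneg_left hRc2 (by norm_num)
    have h4 : (4 * (y : ℝ) + 14) / 15 ≤ 4.0011 / 15 * y := by
      norm_num
      linarith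
    have h5 : 28 / 15 * e ^ 2 * (((Icc k y).filter Nat.Prime).card : ℝ) ≤
        28 / 15 * ((4.0118 / 15) ^ 2 * q) * (4.0011 / 15 * y) := by
      apply mul_le_mul _ (h1.trans h4) (by positivity) (by positivity)
      linarith
    have h6 : q * y = x / L := by
      rw [hq]
      field_simp
    have h7 : 28 / 15 * ((4.0118 / 15) ^ 2 * q) * (4.0011 / 15 * y) =
        (28 / 15 * (4.0118 / 15) ^ 2 * (4.0011 / 15)) * (q * y) := by ring
    rw [h7, h6] at h5
    refine h5.trans ?_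
    apply mul_le_mul_of_nonneg_right _ (by positivity)
    norm_num
  -- (c)
  have hr := log_eight_k (k := k) (by omega)
  set r := Real.log ((k * 8 : ℕ) : ℝ) with hrdef
  rw [← hldef] at hr
  have hr1 : l ≤ r - 2.0794 := by rw [hr]; norm_num at a2 ⊢; linarith
  have hr2 : r - 2.0795 ≤ l := by rw [hr]; norm_num at b2 ⊢; linarith
  have hr3 : 11.55 ≤ r := by norm_num at hr1 hl ⊢; linarith
  have kS := S0_lower (k * 8) (by omega)
  rw [← hrdef] at kS
  have kP := small_sumR hk
  rw [← hP, ← hrdef, ← hldef] at kP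
  have kD : DR r ≤ S0 (k * 8) - P - 11 := by
    have h1 : (4 / 15 * r + 0.75) * l ^ 2 / 2 - 8 / 135 * l ^ 3 ≤
        (4 / 15 * r + 0.75) * (r - 2.0794) ^ 2 / 2 - 8 / 135 * (r - 2.0794) ^ 3 := by
      obtain ⟨u, hu⟩ : ∃ u, u = r - 2.0794 := ⟨_, rfl⟩
      rw [← hu] at hr1 ⊢
      have hru : r = u + 2.0794 := by rw [hu]; ring
      have e1 : (4 / 15 * r + 0.75) * u ^ 2 / 2 - 8 / 135 * u ^ 3 -
          ((4 / 15 * r + 0.75) * l ^ 2 / 2 - 8 / 135 * l ^ 3) =
          (u - l) * ((u + l) * ((4 / 15 * r + 0.75) / 2 - 8 / 135 * (u + l)) +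
            8 / 135 * (u * l)) := by ring
      have e2 : 0 ≤ (u - l) * ((u + l) * ((4 / 15 * r + 0.75) / 2 - 8 / 135 * (u + l)) +
            8 / 135 * (u * l)) := by
        have hu0 : 0 ≤ u := by linarith
        apply mul_nonneg (by linarith)
        apply add_nonneg
        · apply mul_nonneg (by linarith)
          rw [hru]
          norm_num
          linarith
        · positivity
      linarith
    unfold DR
    linarith
  -- (d)
  have kL := L1_upper (fun R h => GG_up R h) (k * 8) (by omega)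
  rw [← hrdef] at kL
  have kL0 := L1_nonneg (k * 8)
  have kV : V ≤ (2 / 15 * r ^ 2 + 0.75 * r) ^ 2 := pow_le_pow_left₀ kL0 kL 2
  -- (e)
  have kT0 : 0 ≤ T := Finset.sum_nonneg (fun _ _ => by positivity)
  have kT : T * l ≤ 0.118 * l + 0.7195 := by
    have h1 := recip_sum (k - 1) y (by omega) (by omega)
    rw [← hT] at h1
    have h2 : ((k - 1 : ℕ) : ℝ) + 1 = k := by
      rw [Nat.cast_sub (by omega)]
      push_cast; ring
    rw [h2, ← hldef] at h1
    have h3 : (1 : ℝ) / ((k - 1 : ℕ) : ℝ) ≤ 1 / 13002 := by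
      apply one_div_le_one_div_of_le (by norm_num)
      have : 13002 ≤ k - 1 := by omega
      exact_mod_cast this
    have h4 : Real.log (Real.log y) ≤ Real.log (9 / 8) + Real.log l + 1 / (k * l) := by
      have h5 : Real.log y ≤ 9 / 8 * l * (1 + 1 / (k * l)) := by
        have h6 : 9 / 8 * l * (1 + 1 / (k * l)) = 3 / 8 * (3 * l + 3 / k) := by
          field_simp
          ring
        rw [h6]
        linarith
      have h6 := Real.log_le_log hlogy0 h5
      rw [Real.log_mul (by positivity) (by positivity), Real.log_mul (by norm_num) hl0.ne'] at h6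
      have h7 : Real.log (1 + 1 / (k * l)) ≤ 1 / (k * l) := by
        have := Real.log_le_sub_one_of_pos (show (0 : ℝ) < 1 + 1 / (k * l) by positivity)
        linarith
      linarith
    have h5 : Real.log (9 / 8) ≤ 0.118 := by
      have h6 : Real.log (9 / 8) = 2 * Real.log 3 - 3 * Real.log 2 := by
        rw [Real.log_div (by norm_num) (by norm_num), show (9 : ℝ) = 3 ^ 2 by norm_num,
          show (8 : ℝ) = 2 ^ 3 by norm_num, Real.log_pow, Real.log_pow]
        norm_num
      have h7 := lg3.2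
      rw [h6]
      norm_num at h7 a2 ⊢
      linarith
    have h6 : T ≤ 0.118 + 1 / (k * l) + (0.719 + 1 / 13002) / l := by
      have h7 : (0.719 + 1 / ((k - 1 : ℕ) : ℝ)) / l ≤ (0.719 + 1 / 13002) / l := by
        apply div_le_div_of_nonneg_right _ hl0.le
        linarith
      linarith
    have h7 := mul_le_mul_of_nonneg_right h6 hl0.le
    have h8 : (0.118 + 1 / (k * l) + (0.719 + 1 / 13002) / l) * l =
        0.118 * l + 1 / k + (0.719 + 1 / 13002) := by
      field_simp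
    have h9 : (1 : ℝ) / k ≤ 1 / 13003 := one_div_le_one_div_of_le (by norm_num) hkR
    rw [h8] at h7
    norm_num at h7 h9 ⊢
    linarith
  have hfin := fin_R x X L l r (S0 (k * 8) - P - 11) (GG Rc) T V hX0 hxX hx0.le
    (by norm_num at hl; linarith) hr1 hr2 hr3 hL1 hGG kT0 kT hV0 kV kD
  have kbV := mul_le_mul_of_nonneg_left kb hV0
  have hVpos : 0 < V := by
    have h1 := L1_lower (k * 8) (by omega)
    rw [← hrdef] at h1
    have h2 : 0 < 2 / 15 * r ^ 2 + 0.55 * r + 0.25 := by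
      have : 0 < r := lt_of_lt_of_le (by norm_num) hr3
      positivity
    rw [hV]
    exact pow_pos (lt_of_lt_of_le h2 h1) 2
  have hgoal : V * (x / (5 * L)) ≤ V * ((RG a (a + (x - 1)) y).card : ℝ) := by
    have h1 : (x : ℝ) / (5 * L) = 0.2 * (x / L) := by
      field_simp
      norm_num
    rw [h1]
    norm_num at hfin kbV ka hcrit ⊢
    linarith
  exact le_of_mul_le_mul_left hgoal hVpos

end Pool.Agent.Lib.MP_bf4c7f
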