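import Mathlib
import Pool.Agent.Lib.MP_bf4c7f_rough.BlkA
import Pool.Agent.Lib.MP_bf4c7f_rough.BlkB

/-!
# The range `x < 2 ^ 41`
-/

set_option autoImplicit false

namespace Pool.Agent.Lib.MP_bf4c7f

open Finset

lemma P7_small (Z : ℕ) (hZ : Z < 7) : P7 Z \ (∅ : Finset ℕ) = ∅ := by
  ext p
  rw [mem_sdiff, mem_P7]
  constructor
  · rintro ⟨⟨_, h2, h3⟩, _⟩
    omega
  · intro h
    exact absurd h (notMem_empty p)

lemma blk_small (j Z : ℕ) (hj : 1 ≤ j) (hZ : Z < 7) (hZj : 2 ^ (3 * (j + 1)) ≤ (Z + 1) ^ 8)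
    (hnum : 1 / (3.4655 * (j : ℝ)) ≤
      4 / 15 * (1 - 1 / 2 ^ j) * (1 - 0) - 28 / 15 * 2 ^ (∅ : Finset ℕ).card * (1 + 0) / 2 ^ j)
    (x a y : ℕ) (hx1 : 2 ^ j ≤ x) (hx2 : x < 2 ^ (j + 1)) (hy1 : y ^ 8 ≤ x ^ 3) :
    (x : ℝ) / (5 * Real.log x) ≤ ((RG a (a + (x - 1)) y).card : ℝ) := by
  refine block j Z ∅ (by simp) 0 0 (4 / 15) (by norm_num) (by simp) ?_ ?_ hj hZj (by norm_num) hnum
    x a y hx1 hx2 hy1
  · rw [P7_small Z hZ]; simp
  · rw [P7_small Z hZ]; simp

/-- odd numbers have no prime factor `≤ 2` -/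
lemma odd_RG {a b n y : ℕ} (h1 : a < n) (h2 : n ≤ b) (hodd : n % 2 = 1) (hy : y ≤ 2) :
    n ∈ RG a b y := by
  rw [mem_RG]
  refine ⟨⟨h1, h2⟩, fun p hp hpn => ?_⟩
  have h3 : p ≠ 2 := by
    rintro rfl
    omega
  have := hp.two_le
  omega

theorem regS (x a y : ℕ) (hx : 2 ≤ x) (hx2 : x < 16) (hy1 : y ^ 8 ≤ x ^ 3) :
    (x : ℝ) / (5 * Real.log x) ≤ ((RG a (a + (x - 1)) y).card : ℝ) := by
  have hxR : (2 : ℝ) ≤ x := by exact_mod_cast hx
  have hlog0 : 0 < Real.log x := Real.log_pos (by linarith)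
  have a2 := Real.log_two_gt_d9
  have hy2 : y ≤ 2 := by
    by_contra hlt
    have h1 : 3 ^ 8 ≤ y ^ 8 := Nat.pow_le_pow_left (by omega) 8
    have h2 : x ^ 3 ≤ 15 ^ 3 := Nat.pow_le_pow_left (by omega) 3
    norm_num at h1 h2
    omega
  have key : ∀ c : ℕ, c ≤ (RG a (a + (x - 1)) y).card → (x : ℝ) ≤ c * (5 * Real.log x) →
      (x : ℝ) / (5 * Real.log x) ≤ ((RG a (a + (x - 1)) y).card : ℝ) := by
    intro c hc h
    have h1 : (c : ℝ) ≤ ((RG a (a + (x - 1)) y).card : ℝ) := by exact_mod_cast hc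
    refine le_trans ?_ h1
    rw [div_le_iff₀ (by positivity)]
    exact h
  rcases le_or_gt x 12 with h12 | h12
  · apply key 1
    · apply Finset.card_pos.2
      rcases le_or_gt x 6 with h6 | h6
      · have hy1' : y ≤ 1 := by
          by_contra hlt
          have h1 : 2 ^ 8 ≤ y ^ 8 := Nat.pow_le_pow_left (by omega) 8
          have h2 : x ^ 3 ≤ 6 ^ 3 := Nat.pow_le_pow_left (by omega) 3
          norm_num at h1 h2
          omega
        refine ⟨a + 1, mem_RG.2 ⟨⟨by omega, by omega⟩, fun p hp _ => ?_⟩⟩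
        have := hp.two_le
        omega
      · rcases Nat.even_or_odd' a with ⟨m, hm | hm⟩
        · exact ⟨a + 1, odd_RG (by omega) (by omega) (by omega) hy2⟩
        · exact ⟨a + 2, odd_RG (by omega) (by omega) (by omega) hy2⟩
    · rw [Nat.cast_one, one_mul]
      obtain ⟨a3, -⟩ := lg3
      obtain ⟨a5, -⟩ := lg5
      obtain ⟨a7, -⟩ := lg7
      have hge : ∀ m : ℕ, 1 ≤ m → m ≤ x → Real.log m ≤ Real.log x := by
        intro m hm1 hmx
        exact Real.log_le_log (by exact_mod_cast hm1) (by exact_mod_cast hmx)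
      rcases le_or_gt x 3 with h | h
      · have h1 := hge 2 (by norm_num) hx
        have h2 : (x : ℝ) ≤ 3 := by exact_mod_cast h
        norm_num at h1 a2
        linarith
      rcases le_or_gt x 6 with h | h'
      · have h1 := hge 4 (by norm_num) (by omega)
        have h2 : (x : ℝ) ≤ 6 := by exact_mod_cast h
        have h3 : Real.log ((4 : ℕ) : ℝ) = 2 * Real.log 2 := by
          push_cast
          rw [show (4 : ℝ) = 2 ^ 2 by norm_num, Real.log_pow]
          norm_num
        rw [h3] at h1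
        norm_num at a2
        linarith
      rcases le_or_gt x 9 with h | h''
      · have h1 := hge 7 (by norm_num) (by omega)
        have h2 : (x : ℝ) ≤ 9 := by exact_mod_cast h
        norm_num at h1 a7
        linarith
      rcases le_or_gt x 11 with h | h'''
      · have h1 := hge 10 (by norm_num) (by omega)
        have h2 : (x : ℝ) ≤ 11 := by exact_mod_cast h
        have h3 : Real.log ((10 : ℕ) : ℝ) = Real.log 2 + Real.log 5 := by
          push_cast
          rw [show (10 : ℝ) = 2 * 5 by norm_num, Real.log_mul (by norm_num) (by norm_num)]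
        rw [h3] at h1
        norm_num at a2 a5
        linarith
      · have h0 : x = 12 := by omega
        have h3 : Real.log ((12 : ℕ) : ℝ) = 2 * Real.log 2 + Real.log 3 := by
          push_cast
          rw [show (12 : ℝ) = 2 ^ 2 * 3 by norm_num, Real.log_mul (by norm_num) (by norm_num),
            Real.log_pow]
          norm_num
        rw [h0, h3]
        norm_num at a2 a3 ⊢
        linarith
  · apply key 2
    · obtain ⟨n, hn1, hn2, hn3⟩ : ∃ n, a < n ∧ n ≤ a + 2 ∧ n % 2 = 1 := by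
        rcases Nat.even_or_odd' a with ⟨m, hm | hm⟩
        · exact ⟨a + 1, by omega, by omega, by omega⟩
        · exact ⟨a + 2, by omega, by omega, by omega⟩
      have h1 : ({n, n + 2} : Finset ℕ) ⊆ RG a (a + (x - 1)) y := by
        intro m hm
        rw [mem_insert, mem_singleton] at hm
        rcases hm with rfl | rfl
        · exact odd_RG (by omega) (by omega) (by omega) hy2
        · exact odd_RG (by omega) (by omega) (by omega) hy2
      have h2 := Finset.card_le_card h1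
      rw [Finset.card_pair (by omega)] at h2
      exact h2
    · have h1 : Real.log 7 ≤ Real.log x := by
        apply Real.log_le_log (by norm_num)
        have : 7 ≤ x := by omega
        exact_mod_cast this
      have h2 : (x : ℝ) ≤ 15 := by
        have : x ≤ 15 := by omega
        exact_mod_cast this
      have h3 := lg7.1
      push_cast
      norm_num at h3
      linarith

/-- **The range `x < 2 ^ 41`.** -/
theorem regM (x a y : ℕ) (hx : 2 ≤ x) (hx2 : x < 2 ^ 41) (hy1 : y ^ 8 ≤ x ^ 3) :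
    (x : ℝ) / (5 * Real.log x) ≤ ((RG a (a + (x - 1)) y).card : ℝ) := by
  rcases lt_or_ge x 16 with h16 | h16
  · exact regS x a y hx h16 hy1
  obtain ⟨j, hj⟩ : ∃ j, j = Nat.log 2 x := ⟨_, rfl⟩
  have h1 : 2 ^ j ≤ x := by rw [hj]; exact Nat.pow_log_le_self 2 (by omega)
  have h2 : x < 2 ^ (j + 1) := by rw [hj]; exact Nat.lt_pow_succ_log_self (by norm_num) x
  have h3 : 4 ≤ j := by
    by_contra hlt
    have : 2 ^ (j + 1) ≤ 2 ^ 4 := Nat.pow_le_pow_right (by norm_num) (by omega)
    omega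
  have h4 : j ≤ 40 := by
    by_contra hlt
    have : 2 ^ 41 ≤ 2 ^ j := Nat.pow_le_pow_right (by norm_num) (by omega)
    omega
  clear hj
  interval_cases j
  · exact blk_small 4 3 (by norm_num) (by norm_num) (by norm_num) (by norm_num) x a y h1 h2 hy1
  · exact blk_small 5 4 (by norm_num) (by norm_num) (by norm_num) (by norm_num) x a y h1 h2 hy1
  · exact blk_small 6 6 (by norm_num) (by norm_num) (by norm_num) (by norm_num) x a y h1 h2 hy1
  · exact blk7 x a y h1 h2 hy1
  · exact blk8 x a y h1 h2 hy1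
  · exact blk9 x a y h1 h2 hy1
  · exact blk10 x a y h1 h2 hy1
  · exact blk11 x a y h1 h2 hy1
  · exact blk12 x a y h1 h2 hy1
  · exact blk13 x a y h1 h2 hy1
  · exact blk14 x a y h1 h2 hy1
  · exact blk15 x a y h1 h2 hy1
  · exact blk16 x a y h1 h2 hy1
  · exact blk17 x a y h1 h2 hy1
  · exact blk18 x a y h1 h2 hy1
  · exact blk19 x a y h1 h2 hy1
  · exact blk20 x a y h1 h2 hy1
  · exact blk21 x a y h1 h2 hy1
  · exact blk22 x a y h1 h2 hy1
  · exact blk23 x a y h1 h2 hy1
  · exact blk24 x a y h1 h2 hy1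
  · exact blk25 x a y h1 h2 hy1
  · exact blk26 x a y h1 h2 hy1
  · exact blk27 x a y h1 h2 hy1
  · exact blk28 x a y h1 h2 hy1
  · exact blk29 x a y h1 h2 hy1
  · exact blk30 x a y h1 h2 hy1
  · exact blk31 x a y h1 h2 hy1
  · exact blk32 x a y h1 h2 hy1
  · exact blk33 x a y h1 h2 hy1
  · exact blk34 x a y h1 h2 hy1
  · exact blk35 x a y h1 h2 hy1
  · exact blk36 x a y h1 h2 hy1
  · exact blk37 x a y h1 h2 hy1
  · exact blk38 x a y h1 h2 hy1
  · exact blk39 x a y h1 h2 hy1
  · exact blk40 x a y h1 h2 hy1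

end Pool.Agent.Lib.MP_bf4c7f
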