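import Mathlib
import Pool.Agent.Lib.MP_bf4c7f_rough.LargeR
import Pool.Agent.Lib.MP_bf4c7f_rough.SmallR

/-!
# Integers without small prime factors in the intervals of Oppermann's conjecture

For every integer `x > 1` every open interval `(a, a + x)` with `0 ≤ a ≤ x²` contains at least
`x / (5 log x)` integers all of whose prime factors are larger than `x ^ (3 / 8)`.  In particular so do
the two intervals `(x² - x, x²)` and `(x², x² + x)` of Oppermann's conjecture, where one expects about
`x / (2 log x)` primes.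

The proof: for `x < 2 ^ 41` presieving by the primes up to 5, 13, 43 or 61 and one step of
inclusion-exclusion; for `x ≥ 2 ^ 41` a lower bound sieve `W(n) (1 - #{p ∣ n, p < x ^ (1 / 3)})` with the square
`W` of a Selberg sum, minus upper bound sieves for the multiples of the primes between `x ^ (1 / 3)` and
`x ^ (3 / 8)`, with explicit constants.
-/

set_option autoImplicit false

namespace Pool.Agent.Lib.MP_bf4c7f_rough.RoughNumbersTop

open Pool.Agent.Lib.MP_bf4c7f

/-- **Main result.**  For all integers `x > 1` and `0 ≤ a ≤ x ^ 2` the open interval `(a, a + x)`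
contains at least `x / (5 log x)` integers `n` such that `x ^ 3 < p ^ 8` for every prime factor `p` of `n`.
Oppermann's intervals are those with `a = x ^ 2 - x` and `a = x ^ 2`. -/
theorem result (x a : ℕ) (hx : 1 < x) (ha : a ≤ x ^ 2) :
    (x : ℝ) / (5 * Real.log x) ≤
      ({n : ℕ | a < n ∧ n < a + x ∧ ∀ p : ℕ, p.Prime → p ∣ n → x ^ 3 < p ^ 8}.ncard : ℝ) := by
  obtain ⟨y, hy1, hy2⟩ : ∃ y, y ^ 8 ≤ x ^ 3 ∧ x ^ 3 < (y + 1) ^ 8 := by
    have h : ∃ r, x ^ 3 < (r + 1) ^ 8 := ⟨x ^ 3, by
      have : x ^ 3 + 1 ≤ (x ^ 3 + 1) ^ 8 := Nat.le_self_pow (by norm_num) _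
      omega⟩
    classical
    refine ⟨Nat.find h, ?_, Nat.find_spec h⟩
    rcases Nat.eq_zero_or_pos (Nat.find h) with h0 | h0
    · rw [h0]; simp
    · have h1 := Nat.find_min h (m := Nat.find h - 1) (by omega)
      rw [Nat.sub_add_cancel h0, not_lt] at h1
      exact h1
  have key : (x : ℝ) / (5 * Real.log x) ≤ ((RG a (a + (x - 1)) y).card : ℝ) := by
    rcases lt_or_ge x (2 ^ 41) with h | h
    · exact regM x a y hx h hy1
    · exact regL x a y h ha hy1 hy2
  refine key.trans ?_
  have hsub : ((RG a (a + (x - 1)) y : Finset ℕ) : Set ℕ) ⊆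
      {n : ℕ | a < n ∧ n < a + x ∧ ∀ p : ℕ, p.Prime → p ∣ n → x ^ 3 < p ^ 8} := by
    intro n hn
    rw [Finset.mem_coe, mem_RG] at hn
    refine ⟨hn.1.1, by omega, fun p hp hpn => ?_⟩
    have h1 : y + 1 ≤ p := hn.2 p hp hpn
    exact lt_of_lt_of_le hy2 (Nat.pow_le_pow_left h1 8)
  have hfin : {n : ℕ | a < n ∧ n < a + x ∧ ∀ p : ℕ, p.Prime → p ∣ n → x ^ 3 < p ^ 8}.Finite :=
    (Finset.finite_toSet (Finset.range (a + x))).subset (fun n hn => by
      rw [Finset.mem_coe, Finset.mem_range]
      exact hn.2.1)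
  have h2 := Set.ncard_le_ncard hsub hfin
  rw [Set.ncard_coe_finset] at h2
  exact_mod_cast h2

end Pool.Agent.Lib.MP_bf4c7f_rough.RoughNumbersTop
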